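import Mathlib

/-!
# The Pick-type formula for vertices of self-affine tilings fails in every dimension

One-dimensional tiling: the vertices are the integers `y` with `y = 0` or even `2`-adic valuation
(the period doubling tiling; tiles of length `1` and `2`, inflation factor `4`, the length `1` tile
inflates to lengths `1, 2, 1` and the length `2` tile to `1, 2, 2, 2, 1`).  The interval
`[0, 4 ^ k]` contains exactly `(2 * 4 ^ k + 1) / 3` tiles, while the density predicts
`2 * 4 ^ k / 3`.  The `d`-fold product of this tiling, scaled by `2`, is a self-affine tiling with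
expansive map `x ↦ 4 x`, and for the patch formed by the cube at the origin the two sides of the
formula differ by at least a constant times the surface area.
-/

open Set Filter Topology MeasureTheory
open scoped Pointwise

namespace Pool.Agent.Results.MP_9c1228_co.PickDisproof

/-! ### Definitions -/

/-- A polytope: the convex hull of a finite set, with nonempty interior. -/
def IsPolytope {d : ℕ} (T : Set (EuclideanSpace ℝ (Fin d))) : Prop :=
  (∃ F : Finset (EuclideanSpace ℝ (Fin d)),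
    T = convexHull ℝ (F : Set (EuclideanSpace ℝ (Fin d)))) ∧ (interior T).Nonempty

/-- A face-to-face tiling of `ℝ ^ d` by translates of finitely many polytopes. -/
structure IsTiling {d : ℕ} (𝒯 : Set (Set (EuclideanSpace ℝ (Fin d)))) : Prop where
  polytope : ∀ T ∈ 𝒯, IsPolytope T
  covers : ⋃₀ 𝒯 = univ
  packing : ∀ S ∈ 𝒯, ∀ T ∈ 𝒯, S ≠ T → Disjoint (interior S) (interior T)
  finite_classes : ∃ 𝓕 : Set (Set (EuclideanSpace ℝ (Fin d))), 𝓕.Finite ∧
    ∀ T ∈ 𝒯, ∃ S ∈ 𝓕, ∃ t : EuclideanSpace ℝ (Fin d), T = t +ᵥ S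
  face_to_face : ∀ S ∈ 𝒯, ∀ T ∈ 𝒯, IsExposed ℝ S (S ∩ T) ∧ IsExposed ℝ T (S ∩ T)

/-- The matrix of `φ` in the standard basis, with entries regarded as complex numbers. -/
noncomputable def cmatrix {d : ℕ} (φ : EuclideanSpace ℝ (Fin d) → EuclideanSpace ℝ (Fin d)) :
    Matrix (Fin d) (Fin d) ℂ :=
  fun i j => ((φ (EuclideanSpace.single j 1) i : ℝ) : ℂ)

/-- `φ` is linear, diagonalizable over `ℂ`, and all its eigenvalues have modulus greater than `1`:
its matrix `M` satisfies `M Q = Q D` with `Q` invertible over `ℂ` and `D` diagonal with entries of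
modulus greater than `1`. -/
def IsExpansive {d : ℕ} (φ : EuclideanSpace ℝ (Fin d) → EuclideanSpace ℝ (Fin d)) : Prop :=
  IsLinearMap ℝ φ ∧ ∃ (Q : Matrix (Fin d) (Fin d) ℂ) (μ : Fin d → ℂ),
    Q.det ≠ 0 ∧ cmatrix φ * Q = Q * Matrix.diagonal μ ∧ ∀ i, 1 < ‖μ i‖

/-- Repetitivity: for every finite set `Q` of tiles there is `R > 0` such that every ball of radius
`R` contains the union of a translate of `Q` that consists of tiles. -/
def IsRepetitive {d : ℕ} (𝒯 : Set (Set (EuclideanSpace ℝ (Fin d)))) : Prop :=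
  ∀ Q ⊆ 𝒯, Q.Finite → ∃ R : ℝ, 0 < R ∧ ∀ x : EuclideanSpace ℝ (Fin d),
    ∃ t : EuclideanSpace ℝ (Fin d), ∀ T ∈ Q, t +ᵥ T ∈ 𝒯 ∧ t +ᵥ T ⊆ Metric.ball x R

/-- Inflation: `φ T` is a finite union of tiles for every tile `T`. -/
def HasInflation {d : ℕ} (𝒯 : Set (Set (EuclideanSpace ℝ (Fin d))))
    (φ : EuclideanSpace ℝ (Fin d) → EuclideanSpace ℝ (Fin d)) : Prop :=
  ∀ T ∈ 𝒯, ∃ Q ⊆ 𝒯, Q.Finite ∧ φ '' T = ⋃₀ Q

/-- Deflation: if `T₂ = t + T₁` then the tiles in `φ T₂` are the translates by `φ t` of the tiles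
in `φ T₁`. -/
def HasDeflation {d : ℕ} (𝒯 : Set (Set (EuclideanSpace ℝ (Fin d))))
    (φ : EuclideanSpace ℝ (Fin d) → EuclideanSpace ℝ (Fin d)) : Prop :=
  ∀ T₁ ∈ 𝒯, ∀ T₂ ∈ 𝒯, ∀ t : EuclideanSpace ℝ (Fin d), T₂ = t +ᵥ T₁ →
    ∀ S : Set (EuclideanSpace ℝ (Fin d)),
      (S ∈ 𝒯 ∧ S ⊆ φ '' T₁) ↔ (φ t +ᵥ S ∈ 𝒯 ∧ φ t +ᵥ S ⊆ φ '' T₂)

/-- A self-affine tiling with expansive map `φ`: repetitivity, inflation and deflation, in the
strong form in which the translations in question carry tiles to tiles. -/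
structure IsSelfAffine {d : ℕ} (𝒯 : Set (Set (EuclideanSpace ℝ (Fin d))))
    (φ : EuclideanSpace ℝ (Fin d) → EuclideanSpace ℝ (Fin d)) : Prop where
  tiling : IsTiling 𝒯
  repetitivity : IsRepetitive 𝒯
  expansive : IsExpansive φ
  inflation : HasInflation 𝒯 φ
  deflation : HasDeflation 𝒯 φ

/-- A patch: a union of finitely many tiles (at least one). -/
def IsPatch {d : ℕ} (𝒯 : Set (Set (EuclideanSpace ℝ (Fin d))))
    (P : Set (EuclideanSpace ℝ (Fin d))) : Prop :=
  ∃ Q ⊆ 𝒯, Q.Finite ∧ Q.Nonempty ∧ P = ⋃₀ Q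

/-- The set `Γ` of vertices of the tiles. -/
def vertexSet {d : ℕ} (𝒯 : Set (Set (EuclideanSpace ℝ (Fin d)))) :
    Set (EuclideanSpace ℝ (Fin d)) :=
  {x | ∃ T ∈ 𝒯, x ∈ T.extremePoints ℝ}

/-- Any two distinct vertices are at distance at least `2`. -/
def IsSeparated {d : ℕ} (𝒯 : Set (Set (EuclideanSpace ℝ (Fin d)))) : Prop :=
  ∀ x ∈ vertexSet 𝒯, ∀ y ∈ vertexSet 𝒯, x ≠ y → 2 ≤ dist x y

/-- The set `φ^k X`. -/
def inflate {d : ℕ} (φ : EuclideanSpace ℝ (Fin d) → EuclideanSpace ℝ (Fin d)) (k : ℕ)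
    (X : Set (EuclideanSpace ℝ (Fin d))) : Set (EuclideanSpace ℝ (Fin d)) := φ^[k] '' X

/-- The volume, as a real number. -/
noncomputable def vol {d : ℕ} (X : Set (EuclideanSpace ℝ (Fin d))) : ℝ := (volume X).toReal

/-- The number of points of `Γ` in `X`, as a real number. -/
noncomputable def numPts {d : ℕ} (Γ X : Set (EuclideanSpace ℝ (Fin d))) : ℝ :=
  ((Γ ∩ X).ncard : ℝ)

/-- `Δ > 0` is the limit of `V(φ^k P) / #(Γ ∩ φ^k P)` for every patch `P`. -/
def IsDelta {d : ℕ} (𝒯 : Set (Set (EuclideanSpace ℝ (Fin d))))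
    (φ : EuclideanSpace ℝ (Fin d) → EuclideanSpace ℝ (Fin d)) (Δ : ℝ) : Prop :=
  0 < Δ ∧ ∀ P : Set (EuclideanSpace ℝ (Fin d)), IsPatch 𝒯 P → Tendsto (fun k : ℕ =>
    vol (inflate φ k P) / numPts (vertexSet 𝒯) (inflate φ k P)) atTop (𝓝 Δ)

/-- The `(d - 1)`-dimensional Hausdorff measure of the boundary (in the normalisation of Mathlib,
a positive constant times the surface area). -/
noncomputable def surfaceArea {d : ℕ} (X : Set (EuclideanSpace ℝ (Fin d))) : ℝ :=
  (Measure.hausdorffMeasure ((d : ℝ) - 1) (frontier X)).toReal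

/-- The asymptotic formula of the question for the patch `P`. -/
def PickFormula {d : ℕ} (𝒯 : Set (Set (EuclideanSpace ℝ (Fin d))))
    (φ : EuclideanSpace ℝ (Fin d) → EuclideanSpace ℝ (Fin d)) (Δ : ℝ)
    (P : Set (EuclideanSpace ℝ (Fin d))) : Prop :=
  (fun k : ℕ => numPts (vertexSet 𝒯) (inflate φ k P) - (vol (inflate φ k P) / Δ +
      1 / 2 * numPts (vertexSet 𝒯) (frontier (inflate φ k P)))) =o[atTop]
    fun k : ℕ => surfaceArea (inflate φ k P)

/-- Euclidean space of dimension `d` (an abbreviation for the proofs below). -/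
abbrev E (d : ℕ) : Type := EuclideanSpace ℝ (Fin d)

/-! ### One-dimensional combinatorics -/

/-- The integers `4 ^ j (4 m + 2)`, that is, those of odd `2`-adic valuation. -/
def Hole (y : ℤ) : Prop := ∃ (j : ℕ) (m : ℤ), y = 4 ^ j * (4 * m + 2)

theorem Hole.even {y : ℤ} (h : Hole y) : y % 2 = 0 := by
  obtain ⟨j, m, rfl⟩ := h
  have : (4 : ℤ) ^ j * (4 * m + 2) = 2 * (4 ^ j * (2 * m + 1)) := by ring
  omega

theorem not_hole_of_odd {y : ℤ} (h : y % 2 = 1) : ¬ Hole y := fun hy => by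
  have := hy.even
  omega

theorem hole_of_two {y : ℤ} (h : y % 4 = 2) : Hole y := ⟨0, y / 4, by omega⟩

theorem hole_four_mul {z : ℤ} : Hole (4 * z) ↔ Hole z := by
  constructor
  · rintro ⟨j, m, h⟩
    rcases j with _ | j
    · rw [pow_zero, one_mul] at h
      omega
    · refine ⟨j, m, ?_⟩
      rw [pow_succ] at h
      have : 4 * z = 4 * (4 ^ j * (4 * m + 2)) := by rw [h]; ring
      omega
  · rintro ⟨j, m, rfl⟩
    exact ⟨j + 1, m, by ring⟩

theorem hole_pow_mul (k : ℕ) {z : ℤ} : Hole (4 ^ k * z) ↔ Hole z := by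
  induction k with
  | zero => simp
  | succ k ih =>
    have : (4 : ℤ) ^ (k + 1) * z = 4 * (4 ^ k * z) := by ring
    rw [this, hole_four_mul, ih]

theorem not_hole_zero : ¬ Hole 0 := by
  rintro ⟨j, m, h⟩
  have h2 : (4 : ℤ) ^ j ≠ 0 := by positivity
  rcases mul_eq_zero.1 h.symm with h3 | h3
  · exact h2 h3
  · omega

/-- Near `0` the pattern repeats around every odd multiple of `4 ^ J`. -/
theorem hole_add_iff (J : ℕ) (m : ℤ) : ∀ y : ℤ, |y| < 4 ^ J →
    (Hole (y + 4 ^ J * (2 * m + 1)) ↔ Hole y) := by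
  induction J with
  | zero =>
    intro y hy
    rw [pow_zero] at hy
    have : y = 0 := by rw [abs_lt] at hy; omega
    subst this
    rw [pow_zero, one_mul, zero_add]
    exact iff_of_false (not_hole_of_odd (by omega)) not_hole_zero
  | succ J ih =>
    intro y hy
    have e : (4 : ℤ) ^ (J + 1) * (2 * m + 1) = 4 * (4 ^ J * (2 * m + 1)) := by ring
    rw [e]
    set w := (4 : ℤ) ^ J * (2 * m + 1) with hw
    have h4 : y % 4 = 0 ∨ y % 4 = 1 ∨ y % 4 = 2 ∨ y % 4 = 3 := by omega
    rcases h4 with h | h | h | h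
    · obtain ⟨z, rfl⟩ : ∃ z, y = 4 * z := ⟨y / 4, by omega⟩
      have hz : |z| < 4 ^ J := by
        rw [abs_mul, pow_succ] at hy
        have : |(4 : ℤ)| = 4 := by norm_num
        rw [this] at hy
        linarith
      have e2 : 4 * z + 4 * w = 4 * (z + w) := by ring
      rw [e2, hole_four_mul, hole_four_mul]
      exact ih z hz
    · exact iff_of_false (not_hole_of_odd (by omega)) (not_hole_of_odd (by omega))
    · exact iff_of_true (hole_of_two (by omega)) (hole_of_two (by omega))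
    · exact iff_of_false (not_hole_of_odd (by omega)) (not_hole_of_odd (by omega))

open scoped Classical in
/-- The next vertex to the right. -/
noncomputable def nxt (y : ℤ) : ℤ := if Hole (y + 1) then y + 2 else y + 1

theorem nxt_of_hole {y : ℤ} (h : Hole (y + 1)) : nxt y = y + 2 := if_pos h

theorem nxt_of_not_hole {y : ℤ} (h : ¬ Hole (y + 1)) : nxt y = y + 1 := if_neg h

theorem nxt_cases (y : ℤ) : (Hole (y + 1) ∧ nxt y = y + 2) ∨ (¬ Hole (y + 1) ∧ nxt y = y + 1) := by
  by_cases h : Hole (y + 1)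
  · exact Or.inl ⟨h, nxt_of_hole h⟩
  · exact Or.inr ⟨h, nxt_of_not_hole h⟩

theorem lt_nxt (y : ℤ) : y < nxt y := by
  rcases nxt_cases y with ⟨_, h⟩ | ⟨_, h⟩ <;> omega

theorem nxt_le (y : ℤ) : nxt y ≤ y + 2 := by
  rcases nxt_cases y with ⟨_, h⟩ | ⟨_, h⟩ <;> omega

theorem not_hole_nxt (y : ℤ) : ¬ Hole (nxt y) := by
  rcases nxt_cases y with ⟨h, e⟩ | ⟨h, e⟩
  · rw [e]
    have := h.even
    exact not_hole_of_odd (by omega)
  · rwa [e]

theorem nxt_le_of_lt {a b : ℤ} (hb : ¬ Hole b) (h : a < b) : nxt a ≤ b := by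
  rcases nxt_cases a with ⟨h1, e⟩ | ⟨h1, e⟩
  · have : b ≠ a + 1 := fun hh => hb (hh ▸ h1)
    omega
  · omega

/-- A point between two vertices lies in a one-dimensional tile between them. -/
theorem locate {u v : ℤ} (hu : ¬ Hole u) (hv : ¬ Hole v) (huv : u < v) (x : ℝ)
    (h1 : 2 * (u : ℝ) ≤ x) (h2 : x ≤ 2 * (v : ℝ)) :
    ∃ b : ℤ, ¬ Hole b ∧ u ≤ b ∧ nxt b ≤ v ∧ 2 * (b : ℝ) ≤ x ∧ x ≤ 2 * (nxt b : ℝ) := by
  by_cases hx : x = 2 * (v : ℝ)
  · by_cases hv1 : Hole (v - 1)
    · have hev := hv1.even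
      have hn : nxt (v - 2) = v := by
        rw [nxt_of_hole (by rwa [show v - 2 + 1 = v - 1 by ring])]; ring
      have hne : u ≠ v - 1 := fun hh => hu (hh ▸ hv1)
      refine ⟨v - 2, not_hole_of_odd (by omega), by omega, by omega, ?_, ?_⟩
      · rw [hx]; push_cast; linarith
      · rw [hx, hn]
    · have hn : nxt (v - 1) = v := by
        rw [nxt_of_not_hole (by rwa [show v - 1 + 1 = v by ring])]; ring
      refine ⟨v - 1, hv1, by omega, by omega, ?_, ?_⟩
      · rw [hx]; push_cast; linarith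
      · rw [hx, hn]
  · have hlt : x < 2 * (v : ℝ) := lt_of_le_of_ne h2 hx
    set f := ⌊x / 2⌋ with hf
    have hf1 : (f : ℝ) ≤ x / 2 := Int.floor_le _
    have hf2 : x / 2 < f + 1 := Int.lt_floor_add_one _
    have huf : u ≤ f := by
      rw [hf, Int.le_floor]; linarith
    have hfv : f < v := by
      rw [hf, Int.floor_lt]; linarith
    by_cases hfh : Hole f
    · have hev := hfh.even
      have hn : nxt (f - 1) = f + 1 := by
        rw [nxt_of_hole (by rwa [show f - 1 + 1 = f by ring])]; ring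
      have hne : u ≠ f := fun hh => hu (hh ▸ hfh)
      refine ⟨f - 1, not_hole_of_odd (by omega), by omega, by omega, ?_, ?_⟩
      · push_cast; linarith
      · rw [hn]; push_cast; linarith
    · refine ⟨f, hfh, huf, nxt_le_of_lt hv hfv, by linarith, ?_⟩
      have h3 : (f : ℝ) + 1 ≤ nxt f := by
        have := lt_nxt f
        exact_mod_cast this
      linarith

/-! ### Boxes -/

variable {d : ℕ}

/-- The box with integer corners `u ≤ v`, scaled by `2`. -/
def box (u v : Fin d → ℤ) : Set (E d) :=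
  {x | ∀ i, 2 * (u i : ℝ) ≤ x i ∧ x i ≤ 2 * (v i : ℝ)}

/-- The integer vector `y`, scaled by `2`, as a point of Euclidean space. -/
noncomputable def ev (y : Fin d → ℤ) : E d := WithLp.toLp 2 fun i => 2 * (y i : ℝ)

@[simp] theorem ev_apply (y : Fin d → ℤ) (i : Fin d) : ev y i = 2 * (y i : ℝ) := rfl

theorem ev_injective : Function.Injective (ev (d := d)) := by
  intro y z h
  funext i
  have := congrArg (fun x : E d => x i) h
  simp only [ev_apply] at this
  have h2 : (y i : ℝ) = z i := by linarith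
  exact_mod_cast h2

theorem ev_mem_box {u v y : Fin d → ℤ} : ev y ∈ box u v ↔ ∀ i, u i ≤ y i ∧ y i ≤ v i := by
  unfold box
  simp only [mem_ofPred_eq, ev_apply]
  refine forall_congr' fun i => ?_
  constructor
  · rintro ⟨h1, h2⟩
    have h3 : (u i : ℝ) ≤ y i := by linarith
    have h4 : (y i : ℝ) ≤ v i := by linarith
    exact ⟨by exact_mod_cast h3, by exact_mod_cast h4⟩
  · rintro ⟨h1, h2⟩
    have h3 : (u i : ℝ) ≤ y i := by exact_mod_cast h1
    have h4 : (y i : ℝ) ≤ v i := by exact_mod_cast h2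
    exact ⟨by linarith, by linarith⟩

theorem box_eq_preimage (u v : Fin d → ℤ) :
    box u v = (EuclideanSpace.equiv (Fin d) ℝ).toHomeomorph ⁻¹'
      (univ.pi fun i => Icc (2 * (u i : ℝ)) (2 * (v i : ℝ))) := by
  ext x
  rw [mem_preimage, mem_univ_pi]
  exact Iff.rfl

theorem interior_box (u v : Fin d → ℤ) :
    interior (box u v) = {x | ∀ i, 2 * (u i : ℝ) < x i ∧ x i < 2 * (v i : ℝ)} := by
  rw [box_eq_preimage, ← Homeomorph.preimage_interior, interior_pi_set finite_univ]
  ext x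
  simp

theorem isClosed_box (u v : Fin d → ℤ) : IsClosed (box u v) := by
  rw [box_eq_preimage]
  exact (isClosed_set_pi fun i _ => isClosed_Icc).preimage (Homeomorph.continuous _)

theorem box_eq_image (u v : Fin d → ℤ) :
    box u v = (EuclideanSpace.equiv (Fin d) ℝ).symm ''
      (univ.pi fun i => Icc (2 * (u i : ℝ)) (2 * (v i : ℝ))) := by
  rw [box_eq_preimage]
  exact ((EuclideanSpace.equiv (Fin d) ℝ).symm.toEquiv.image_eq_preimage_symm _).symm

theorem box_eq_convexHull (u v : Fin d → ℤ) (h : ∀ i, u i ≤ v i) :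
    ∃ F : Finset (E d), box u v = convexHull ℝ (F : Set (E d)) := by
  have hfin : ((EuclideanSpace.equiv (Fin d) ℝ).symm ''
      (univ.pi fun i => ({2 * (u i : ℝ), 2 * (v i : ℝ)} : Set ℝ))).Finite :=
    (Set.Finite.pi fun i => (Set.toFinite _)).image _
  refine ⟨hfin.toFinset, ?_⟩
  rw [Set.Finite.coe_toFinset, box_eq_image]
  have h1 := LinearMap.image_convexHull ((EuclideanSpace.equiv (Fin d) ℝ).symm : (Fin d → ℝ) →ₗ[ℝ] E d)
    (univ.pi fun i => ({2 * (u i : ℝ), 2 * (v i : ℝ)} : Set ℝ))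
  have h2 : (convexHull ℝ) (univ.pi fun i => ({2 * (u i : ℝ), 2 * (v i : ℝ)} : Set ℝ)) =
      univ.pi fun i => Icc (2 * (u i : ℝ)) (2 * (v i : ℝ)) := by
    rw [convexHull_pi]
    refine congrArg _ (funext fun i => ?_)
    have hi : 2 * (u i : ℝ) ≤ 2 * (v i : ℝ) := by
      have : (u i : ℝ) ≤ v i := by exact_mod_cast h i
      linarith
    rw [convexHull_pair, segment_eq_Icc hi]
  rw [h2] at h1
  exact h1

theorem extremePoints_Icc {a b : ℝ} (h : a ≤ b) : (Icc a b).extremePoints ℝ = {a, b} := by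
  ext x
  rw [mem_extremePoints_iff_left]
  constructor
  · rintro ⟨⟨h1, h2⟩, h3⟩
    by_contra hx
    simp only [mem_insert_iff, mem_singleton_iff, not_or] at hx
    have ha : a < x := lt_of_le_of_ne h1 (Ne.symm hx.1)
    have hb : x < b := lt_of_le_of_ne h2 hx.2
    have := h3 a ⟨le_rfl, h⟩ b ⟨h, le_rfl⟩ (by
      rw [openSegment_eq_Ioo (ha.trans hb)]; exact ⟨ha, hb⟩)
    exact ha.ne this
  · rintro (rfl | rfl)
    · refine ⟨⟨le_rfl, h⟩, fun x₁ hx₁ x₂ hx₂ hx => ?_⟩
      obtain ⟨s, t, hs, ht, hst, he⟩ := hx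
      simp only [smul_eq_mul] at he
      have : s * (x₁ - x) + t * (x₂ - x) = 0 := by
        have : x = s * x + t * x := by rw [← add_mul, hst, one_mul]
        linarith
      have h1 : 0 ≤ s * (x₁ - x) := mul_nonneg hs.le (by linarith [hx₁.1])
      have h2 : 0 ≤ t * (x₂ - x) := mul_nonneg ht.le (by linarith [hx₂.1])
      have h3 : s * (x₁ - x) = 0 := by linarith
      rcases mul_eq_zero.1 h3 with h4 | h4
      · exact absurd h4 hs.ne'
      · linarith
    · refine ⟨⟨h, le_rfl⟩, fun x₁ hx₁ x₂ hx₂ hx => ?_⟩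
      obtain ⟨s, t, hs, ht, hst, he⟩ := hx
      simp only [smul_eq_mul] at he
      have : s * (x - x₁) + t * (x - x₂) = 0 := by
        have : x = s * x + t * x := by rw [← add_mul, hst, one_mul]
        linarith
      have h1 : 0 ≤ s * (x - x₁) := mul_nonneg hs.le (by linarith [hx₁.2])
      have h2 : 0 ≤ t * (x - x₂) := mul_nonneg ht.le (by linarith [hx₂.2])
      have h3 : s * (x - x₁) = 0 := by linarith
      rcases mul_eq_zero.1 h3 with h4 | h4
      · exact absurd h4 hs.ne'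
      · linarith

theorem extremePoints_box (u v : Fin d → ℤ) (h : ∀ i, u i ≤ v i) :
    (box u v).extremePoints ℝ = {x | ∀ i, x i = 2 * (u i : ℝ) ∨ x i = 2 * (v i : ℝ)} := by
  rw [box_eq_image, ← image_extremePoints, extremePoints_pi]
  have h2 : (univ.pi fun i => (Icc (2 * (u i : ℝ)) (2 * (v i : ℝ))).extremePoints ℝ) =
      univ.pi fun i => ({2 * (u i : ℝ), 2 * (v i : ℝ)} : Set ℝ) := by
    refine congrArg _ (funext fun i => ?_)
    refine extremePoints_Icc ?_
    have : (u i : ℝ) ≤ v i := by exact_mod_cast h i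
    linarith
  rw [h2]
  ext x
  constructor
  · rintro ⟨y, hy, rfl⟩ i
    exact hy i (mem_univ i)
  · intro hx
    exact ⟨fun i => x i, fun i _ => hx i, rfl⟩

theorem smul_box (c : ℕ) (hc : 0 < c) (u v : Fin d → ℤ) :
    (c : ℝ) • box u v = box (fun i => (c : ℤ) * u i) (fun i => (c : ℤ) * v i) := by
  have hc' : (0 : ℝ) < c := by exact_mod_cast hc
  ext x
  rw [mem_smul_set_iff_inv_smul_mem₀ hc'.ne']
  unfold box
  simp only [mem_ofPred_eq, PiLp.smul_apply, smul_eq_mul]
  refine forall_congr' fun i => ?_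
  rw [← div_eq_inv_mul, le_div_iff₀ hc', div_le_iff₀ hc']
  push_cast
  constructor
  · rintro ⟨h1, h2⟩
    exact ⟨by linarith, by linarith⟩
  · rintro ⟨h1, h2⟩
    exact ⟨by linarith, by linarith⟩

theorem vadd_box (t : Fin d → ℤ) (u v : Fin d → ℤ) :
    ev t +ᵥ box u v = box (fun i => u i + t i) (fun i => v i + t i) := by
  ext x
  rw [mem_vadd_set_iff_neg_vadd_mem]
  unfold box
  simp only [mem_ofPred_eq, vadd_eq_add, PiLp.add_apply, PiLp.neg_apply, ev_apply]
  refine forall_congr' fun i => ?_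
  push_cast
  constructor
  · rintro ⟨h1, h2⟩
    exact ⟨by linarith, by linarith⟩
  · rintro ⟨h1, h2⟩
    exact ⟨by linarith, by linarith⟩

theorem corner_mem_box (u v : Fin d → ℤ) (h : ∀ i, u i ≤ v i) :
    ev u ∈ box u v ∧ ev v ∈ box u v :=
  ⟨ev_mem_box.2 fun i => ⟨le_rfl, h i⟩, ev_mem_box.2 fun i => ⟨h i, le_rfl⟩⟩

/-- If a box is a translate of another one, the translation vector and the sizes are the
obvious ones. -/
theorem eq_of_vadd_box {u v u' v' : Fin d → ℤ} (h : ∀ i, u i ≤ v i) (h' : ∀ i, u' i ≤ v' i)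
    (t : E d) (ht : box u' v' = t +ᵥ box u v) :
    t = ev (fun i => u' i - u i) ∧ ∀ i, v' i - u' i = v i - u i := by
  have key : ∀ i, t i = 2 * ((u' i : ℝ) - u i) ∧ t i = 2 * ((v' i : ℝ) - v i) := by
    intro i
    have h1 : t +ᵥ ev u ∈ box u' v' := by
      rw [ht]; exact vadd_mem_vadd_set (corner_mem_box u v h).1
    have h2 : t +ᵥ ev v ∈ box u' v' := by
      rw [ht]; exact vadd_mem_vadd_set (corner_mem_box u v h).2
    have h3 : ev u' ∈ t +ᵥ box u v := by
      rw [← ht]; exact (corner_mem_box u' v' h').1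
    have h4 : ev v' ∈ t +ᵥ box u v := by
      rw [← ht]; exact (corner_mem_box u' v' h').2
    rw [mem_vadd_set_iff_neg_vadd_mem] at h3 h4
    have g1 := h1 i
    have g2 := h2 i
    have g3 := h3 i
    have g4 := h4 i
    simp only [vadd_eq_add, PiLp.add_apply, PiLp.neg_apply, ev_apply] at g1 g2 g3 g4
    constructor <;> linarith [g1.1, g1.2, g2.1, g2.2, g3.1, g3.2, g4.1, g4.2]
  constructor
  · ext i
    rw [ev_apply, (key i).1]
    push_cast
    ring
  · intro i
    have h1 := key i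
    have h2 : (v' i : ℝ) - u' i = v i - u i := by linarith [h1.1, h1.2]
    exact_mod_cast h2

theorem box_injective {u v u' v' : Fin d → ℤ} (h : ∀ i, u i ≤ v i) (h' : ∀ i, u' i ≤ v' i)
    (he : box u v = box u' v') : u = u' ∧ v = v' := by
  have := eq_of_vadd_box h h' 0 (by rw [zero_vadd, he])
  have h0 : ∀ i, u' i = u i := by
    intro i
    have h1 := congrArg (fun x : E d => x i) this.1
    simp only [ev_apply, PiLp.zero_apply] at h1
    push_cast at h1
    have h2 : (u' i : ℝ) = u i := by linarith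
    exact_mod_cast h2
  constructor
  · funext i; exact (h0 i).symm
  · funext i
    have h1 := this.2 i
    have h2 := h0 i
    omega

/-- The tile with lower corner `a`. -/
noncomputable def tile (a : Fin d → ℤ) : Set (E d) := box a fun i => nxt (a i)

theorem mem_tile {a : Fin d → ℤ} {x : E d} :
    x ∈ tile a ↔ ∀ i, 2 * (a i : ℝ) ≤ x i ∧ x i ≤ 2 * (nxt (a i) : ℝ) := Iff.rfl

/-- All coordinates are vertices of the one-dimensional tiling. -/
def Vtx (a : Fin d → ℤ) : Prop := ∀ i, ¬ Hole (a i)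

/-- The product tiling. -/
def tiles (d : ℕ) : Set (Set (E d)) := {T | ∃ a : Fin d → ℤ, Vtx a ∧ T = tile a}

theorem tile_injective {a b : Fin d → ℤ} (h : tile a = tile b) : a = b :=
  (box_injective (fun _ => (lt_nxt _).le) (fun _ => (lt_nxt _).le) h).1

theorem iUnion_tiles : ⋃₀ tiles d = univ := by
  rw [eq_univ_iff_forall]
  intro x
  have hx : ∀ i, ∃ b : ℤ, ¬ Hole b ∧ 2 * (b : ℝ) ≤ x i ∧ x i ≤ 2 * (nxt b : ℝ) := by
    intro i
    set f := ⌊x i / 2⌋ with hf
    have hf1 : (f : ℝ) ≤ x i / 2 := Int.floor_le _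
    have hf2 : x i / 2 < f + 1 := Int.lt_floor_add_one _
    obtain ⟨b, hb, -, -, h3, h4⟩ := locate (u := 2 * (f / 2) - 1) (v := 2 * (f / 2) + 3)
      (not_hole_of_odd (by omega)) (not_hole_of_odd (by omega)) (by omega) (x i)
      (by
        have : (2 * (f / 2) - 1 : ℤ) ≤ f := by omega
        have : ((2 * (f / 2) - 1 : ℤ) : ℝ) ≤ f := by exact_mod_cast this
        linarith)
      (by
        have : f + 1 ≤ (2 * (f / 2) + 3 : ℤ) := by omega
        have : (f : ℝ) + 1 ≤ ((2 * (f / 2) + 3 : ℤ) : ℝ) := by exact_mod_cast this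
        linarith)
    exact ⟨b, hb, h3, h4⟩
  choose b hb h1 h2 using hx
  exact ⟨tile b, ⟨b, hb, rfl⟩, fun i => ⟨h1 i, h2 i⟩⟩

theorem disjoint_interior_tile {a b : Fin d → ℤ} (ha : Vtx a) (hb : Vtx b) (hab : a ≠ b) :
    Disjoint (interior (tile a)) (interior (tile b)) := by
  unfold tile
  rw [interior_box, interior_box, disjoint_left]
  intro x hx hy
  apply hab
  funext i
  obtain ⟨h1, h2⟩ := hx i
  obtain ⟨h3, h4⟩ := hy i
  rcases lt_trichotomy (a i) (b i) with h | h | h
  · have h5 := nxt_le_of_lt (hb i) h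
    have h6 : (nxt (a i) : ℝ) ≤ b i := by exact_mod_cast h5
    linarith
  · exact h
  · have h5 := nxt_le_of_lt (ha i) h
    have h6 : (nxt (b i) : ℝ) ≤ a i := by exact_mod_cast h5
    linarith

theorem isExposed_tile {a b : Fin d → ℤ} (ha : Vtx a) (hb : Vtx b) :
    IsExposed ℝ (tile a) (tile a ∩ tile b) := by
  classical
  rintro ⟨z, hza, hzb⟩
  -- the relative position in every coordinate
  have hpos : ∀ i, a i = b i ∨ (a i < b i ∧ nxt (a i) = b i) ∨ (b i < a i ∧ nxt (b i) = a i) := by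
    intro i
    obtain ⟨h1, h2⟩ := mem_tile.1 hza i
    obtain ⟨h3, h4⟩ := mem_tile.1 hzb i
    rcases lt_trichotomy (a i) (b i) with h | h | h
    · right; left
      refine ⟨h, le_antisymm (nxt_le_of_lt (hb i) h) ?_⟩
      have : (b i : ℝ) ≤ nxt (a i) := by linarith
      exact_mod_cast this
    · exact Or.inl h
    · right; right
      refine ⟨h, le_antisymm (nxt_le_of_lt (ha i) h) ?_⟩
      have : (a i : ℝ) ≤ nxt (b i) := by linarith
      exact_mod_cast this
  set c : Fin d → ℝ := fun i => if a i = b i then 0 else if a i < b i then 1 else -1 with hc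
  set l : StrongDual ℝ (E d) := ∑ i, c i • EuclideanSpace.proj i with hl
  have hlx : ∀ x : E d, l x = ∑ i, c i * x i := by
    intro x
    rw [hl]
    simp
  refine ⟨l, ?_⟩
  -- the maximiser
  set m : Fin d → ℤ := fun i => if a i < b i then nxt (a i) else a i with hm
  have hle : ∀ x ∈ tile a, ∀ i, c i * x i ≤ c i * (2 * (m i : ℝ)) := by
    intro x hx i
    obtain ⟨h1, h2⟩ := mem_tile.1 hx i
    rcases hpos i with h | ⟨h, -⟩ | ⟨h, -⟩
    · simp only [hc, if_pos h, zero_mul, le_refl]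
    · simp only [hc, hm, if_neg h.ne, if_pos h, one_mul]
      exact h2
    · simp only [hc, hm, if_neg h.ne', if_neg h.not_gt]
      linarith
  have hmem : ∀ x ∈ tile a, (x ∈ tile b ↔ ∀ i, c i * x i = c i * (2 * (m i : ℝ))) := by
    intro x hx
    constructor
    · intro hxb i
      obtain ⟨h1, h2⟩ := mem_tile.1 hx i
      obtain ⟨h3, h4⟩ := mem_tile.1 hxb i
      rcases hpos i with h | ⟨h, e⟩ | ⟨h, e⟩
      · simp only [hc, if_pos h, zero_mul]
      · simp only [hc, hm, if_neg h.ne, if_pos h, one_mul]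
        have h6 : (nxt (a i) : ℝ) = b i := by exact_mod_cast e
        linarith
      · simp only [hc, hm, if_neg h.ne', if_neg h.not_gt]
        have h6 : (nxt (b i) : ℝ) = a i := by exact_mod_cast e
        linarith
    · intro hxc
      rw [mem_tile]
      intro i
      obtain ⟨h1, h2⟩ := mem_tile.1 hx i
      have h5 := hxc i
      rcases hpos i with h | ⟨h, e⟩ | ⟨h, e⟩
      · have h6 : (nxt (b i) : ℝ) = nxt (a i) := by rw [h]
        have h7 : (b i : ℝ) = a i := by rw [h]
        constructor <;> linarith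
      · simp only [hc, hm, if_neg h.ne, if_pos h, one_mul] at h5
        rw [e] at h5
        have h6 : (b i : ℝ) ≤ nxt (b i) := by exact_mod_cast (lt_nxt (b i)).le
        constructor <;> linarith
      · simp only [hc, hm, if_neg h.ne', if_neg h.not_gt] at h5
        have h6 : (b i : ℝ) ≤ nxt (b i) := by exact_mod_cast (lt_nxt (b i)).le
        have h7 : (nxt (b i) : ℝ) = a i := by exact_mod_cast e
        constructor <;> linarith
  have hmtile : ev m ∈ tile a := by
    unfold tile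
    rw [ev_mem_box]
    intro i
    have := lt_nxt (a i)
    simp only [hm]
    split_ifs <;> constructor <;> omega
  ext x
  constructor
  · rintro ⟨hx, hxb⟩
    refine ⟨hx, fun y hy => ?_⟩
    rw [hlx, hlx]
    refine Finset.sum_le_sum fun i _ => ?_
    rw [(hmem x hx).1 hxb i]
    exact hle y hy i
  · rintro ⟨hx, hmax⟩
    refine ⟨hx, (hmem x hx).2 fun i => ?_⟩
    have h1 := hmax _ hmtile
    rw [hlx, hlx] at h1
    have h2 : ∑ i, (c i * (2 * (m i : ℝ)) - c i * x i) ≤ 0 := by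
      rw [Finset.sum_sub_distrib]
      simp only [ev_apply] at h1
      linarith
    have h3 := (Finset.sum_eq_zero_iff_of_nonneg (s := Finset.univ)
      (f := fun i => c i * (2 * (m i : ℝ)) - c i * x i)
      (fun i _ => by have := hle x hx i; linarith)).1
      (le_antisymm h2 (Finset.sum_nonneg fun i _ => by have := hle x hx i; linarith)) i
      (Finset.mem_univ i)
    linarith

theorem isPolytope_tile (a : Fin d → ℤ) : IsPolytope (tile a) := by
  refine ⟨box_eq_convexHull _ _ fun i => (lt_nxt _).le, ?_⟩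
  unfold tile
  rw [interior_box]
  refine ⟨WithLp.toLp 2 fun i => (a i : ℝ) + nxt (a i), fun i => ?_⟩
  have h : (a i : ℝ) < nxt (a i) := by exact_mod_cast lt_nxt (a i)
  change 2 * (a i : ℝ) < (a i : ℝ) + nxt (a i) ∧ (a i : ℝ) + nxt (a i) < 2 * (nxt (a i) : ℝ)
  constructor <;> linarith

theorem isTiling_tiles : IsTiling (tiles d) where
  polytope := by
    rintro T ⟨a, -, rfl⟩
    exact isPolytope_tile a
  covers := iUnion_tiles
  packing := by
    rintro S ⟨a, ha, rfl⟩ T ⟨b, hb, rfl⟩ hne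
    exact disjoint_interior_tile ha hb fun h => hne (h ▸ rfl)
  finite_classes := by
    refine ⟨(fun s : Fin d → ℤ => box (fun _ => 0) s) '' (univ.pi fun _ => ({1, 2} : Set ℤ)),
      (Set.Finite.pi fun _ => Set.toFinite _).image _, ?_⟩
    rintro T ⟨a, ha, rfl⟩
    refine ⟨_, ⟨fun i => nxt (a i) - a i, fun i _ => ?_, rfl⟩, ev a, ?_⟩
    · rcases nxt_cases (a i) with ⟨-, h⟩ | ⟨-, h⟩
      · right
        change nxt (a i) - a i = 2
        omega
      · left
        change nxt (a i) - a i = 1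
        omega
    · rw [vadd_box]
      unfold tile
      congr 1
      · funext i; ring
      · funext i; ring
  face_to_face := by
    rintro S ⟨a, ha, rfl⟩ T ⟨b, hb, rfl⟩
    refine ⟨isExposed_tile ha hb, ?_⟩
    rw [inter_comm]
    exact isExposed_tile hb ha

/-- The expansive map: multiplication by `4`. -/
noncomputable def phi (d : ℕ) : E d → E d := fun x => (4 : ℝ) • x

theorem phi_pow_apply (k : ℕ) (x : E d) : (phi d)^[k] x = ((4 ^ k : ℕ) : ℝ) • x := by
  induction k with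
  | zero => simp
  | succ k ih =>
    rw [Function.iterate_succ_apply', ih]
    unfold phi
    rw [smul_smul, pow_succ]
    push_cast
    congr 1
    ring

theorem phi_pow_image (k : ℕ) (X : Set (E d)) :
    (phi d)^[k] '' X = ((4 ^ k : ℕ) : ℝ) • X := by
  ext x
  simp only [mem_image, mem_smul_set, phi_pow_apply]

theorem phi_image (X : Set (E d)) : phi d '' X = ((4 : ℕ) : ℝ) • X := by
  have := phi_pow_image 1 X
  rwa [Function.iterate_one, pow_one] at this

theorem isExpansive_phi : IsExpansive (phi d) := by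
  refine ⟨⟨fun x y => smul_add _ _ _, fun c x => smul_comm _ _ _⟩, 1, fun _ => 4, by simp, ?_,
    fun _ => by norm_num⟩
  rw [mul_one, one_mul]
  ext i j
  by_cases h : i = j
  · simp [cmatrix, phi, h]
  · simp [cmatrix, phi, h]

/-- Tiles in an inflated tile. -/
theorem tile_subset_iff {a c : Fin d → ℤ} :
    tile c ⊆ phi d '' tile a ↔ ∀ i, 4 * a i ≤ c i ∧ nxt (c i) ≤ 4 * nxt (a i) := by
  rw [phi_image]
  unfold tile
  rw [smul_box 4 (by norm_num)]
  constructor
  · intro h i
    have h1 := ev_mem_box.1 (h (corner_mem_box c (fun i => nxt (c i)) fun i => (lt_nxt _).le).1) i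
    have h2 := ev_mem_box.1 (h (corner_mem_box c (fun i => nxt (c i)) fun i => (lt_nxt _).le).2) i
    push_cast at h1 h2
    exact ⟨h1.1, h2.2⟩
  · intro h x hx i
    obtain ⟨h1, h2⟩ := hx i
    obtain ⟨h3, h4⟩ := h i
    have h5 : ((4 * a i : ℤ) : ℝ) ≤ c i := by exact_mod_cast h3
    have h6 : (nxt (c i) : ℝ) ≤ ((4 * nxt (a i) : ℤ) : ℝ) := by exact_mod_cast h4
    push_cast at h5 h6 ⊢
    constructor <;> linarith

theorem inflation_tile {a : Fin d → ℤ} (ha : Vtx a) :
    ∃ Q ⊆ tiles d, Q.Finite ∧ phi d '' tile a = ⋃₀ Q := by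
  refine ⟨{T | T ∈ tiles d ∧ T ⊆ phi d '' tile a}, fun T hT => hT.1, ?_, ?_⟩
  · refine ((Set.Finite.pi (t := fun i => Icc (4 * a i) (4 * nxt (a i)))
      fun i => Set.finite_Icc _ _).image tile).subset ?_
    rintro T ⟨⟨c, hc, rfl⟩, hT⟩
    rw [tile_subset_iff] at hT
    refine ⟨c, fun i _ => ⟨(hT i).1, ?_⟩, rfl⟩
    exact (lt_nxt (c i)).le.trans (hT i).2
  · ext x
    constructor
    · intro hx
      have hx' := hx
      rw [phi_image] at hx'
      unfold tile at hx'
      rw [smul_box 4 (by norm_num)] at hx'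
      have hex : ∀ i, ∃ b : ℤ, ¬ Hole b ∧ 4 * a i ≤ b ∧ nxt b ≤ 4 * nxt (a i) ∧
          2 * (b : ℝ) ≤ x i ∧ x i ≤ 2 * (nxt b : ℝ) := by
        intro i
        obtain ⟨h1, h2⟩ := hx' i
        have hlt := lt_nxt (a i)
        exact locate (u := 4 * a i) (v := 4 * nxt (a i)) (by rw [hole_four_mul]; exact ha i)
          (by rw [hole_four_mul]; exact not_hole_nxt _) (by omega) (x i)
          (by push_cast at h1 ⊢; exact h1) (by push_cast at h2 ⊢; exact h2)
      choose b hb h1 h2 h3 h4 using hex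
      refine ⟨tile b, ⟨⟨b, hb, rfl⟩, ?_⟩, fun i => ⟨h3 i, h4 i⟩⟩
      rw [tile_subset_iff]
      exact fun i => ⟨h1 i, h2 i⟩
    · rintro ⟨T, ⟨-, hT⟩, hx⟩
      exact hT hx

/-- Inside inflated tiles of the same size the pattern is the same. -/
theorem hole_shift {a b y : ℤ} (ha : ¬ Hole a) (hb : ¬ Hole b) (hab : nxt b - b = nxt a - a)
    (h1 : 4 * a ≤ y) (h2 : y ≤ 4 * nxt a) : Hole (y + 4 * (b - a)) ↔ Hole y := by
  have h4 : y % 4 = 0 ∨ y % 4 = 1 ∨ y % 4 = 2 ∨ y % 4 = 3 := by omega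
  rcases h4 with h | h | h | h
  · obtain ⟨z, rfl⟩ : ∃ z, y = 4 * z := ⟨y / 4, by omega⟩
    have e2 : 4 * z + 4 * (b - a) = 4 * (z + (b - a)) := by ring
    rw [e2, hole_four_mul, hole_four_mul]
    have hna := not_hole_nxt a
    have hnb := not_hole_nxt b
    rcases nxt_cases a with ⟨g1, g2⟩ | ⟨g1, g2⟩
    · rcases nxt_cases b with ⟨g3, g4⟩ | ⟨g3, g4⟩
      · have hz : z = a ∨ z = a + 1 ∨ z = a + 2 := by omega
        rcases hz with rfl | rfl | rfl
        · rw [show z + (b - z) = b by ring]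
          exact iff_of_false hb ha
        · rw [show a + 1 + (b - a) = b + 1 by ring]
          exact iff_of_true g3 g1
        · rw [show a + 2 + (b - a) = nxt b by omega, ← g2]
          exact iff_of_false hnb hna
      · omega
    · rcases nxt_cases b with ⟨g3, g4⟩ | ⟨g3, g4⟩
      · omega
      · have hz : z = a ∨ z = a + 1 := by omega
        rcases hz with rfl | rfl
        · rw [show z + (b - z) = b by ring]
          exact iff_of_false hb ha
        · rw [show a + 1 + (b - a) = b + 1 by ring]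
          exact iff_of_false g3 g1
  · exact iff_of_false (not_hole_of_odd (by omega)) (not_hole_of_odd (by omega))
  · exact iff_of_true (hole_of_two (by omega)) (hole_of_two (by omega))
  · exact iff_of_false (not_hole_of_odd (by omega)) (not_hole_of_odd (by omega))

/-- One direction of the deflation property. -/
theorem deflation_aux {a b : Fin d → ℤ} (ha : Vtx a) (hb : Vtx b)
    (hab : ∀ i, nxt (b i) - b i = nxt (a i) - a i) {S : Set (E d)}
    (hS : S ∈ tiles d ∧ S ⊆ phi d '' tile a) :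
    ev (fun i => 4 * (b i - a i)) +ᵥ S ∈ tiles d ∧
      ev (fun i => 4 * (b i - a i)) +ᵥ S ⊆ phi d '' tile b := by
  obtain ⟨⟨c, hc, rfl⟩, hsub⟩ := hS
  rw [tile_subset_iff] at hsub
  have hnxt : ∀ i, nxt (c i + 4 * (b i - a i)) = nxt (c i) + 4 * (b i - a i) := by
    intro i
    have h1 := hsub i
    have hlt := lt_nxt (c i)
    have h2 := hole_shift (ha i) (hb i) (hab i) (y := c i + 1) (by omega) (by omega)
    have e : c i + 4 * (b i - a i) + 1 = c i + 1 + 4 * (b i - a i) := by ring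
    rcases nxt_cases (c i) with ⟨g1, g2⟩ | ⟨g1, g2⟩
    · rw [nxt_of_hole (by rw [e, h2]; exact g1), g2]; ring
    · rw [nxt_of_not_hole (by rw [e, h2]; exact g1), g2]; ring
  have hc' : Vtx (fun i => c i + 4 * (b i - a i)) := by
    intro i
    have h1 := hsub i
    have hlt := lt_nxt (c i)
    rw [hole_shift (ha i) (hb i) (hab i) (by omega) (by omega)]
    exact hc i
  have he : ev (fun i => 4 * (b i - a i)) +ᵥ tile c = tile (fun i => c i + 4 * (b i - a i)) := by
    unfold tile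
    rw [vadd_box]
    congr 1
    funext i
    exact (hnxt i).symm
  rw [he]
  refine ⟨⟨_, hc', rfl⟩, ?_⟩
  rw [tile_subset_iff]
  intro i
  have h1 := hsub i
  have h2 := hab i
  rw [hnxt i]
  constructor <;> omega

theorem deflation_tiles (T₁ : Set (E d)) (h₁ : T₁ ∈ tiles d) (T₂ : Set (E d)) (h₂ : T₂ ∈ tiles d)
    (t : E d) (ht : T₂ = t +ᵥ T₁) (S : Set (E d)) :
    (S ∈ tiles d ∧ S ⊆ phi d '' T₁) ↔ (phi d t +ᵥ S ∈ tiles d ∧ phi d t +ᵥ S ⊆ phi d '' T₂) := by
  obtain ⟨a, ha, rfl⟩ := h₁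
  obtain ⟨b, hb, rfl⟩ := h₂
  obtain ⟨h3, h4⟩ := eq_of_vadd_box (fun i => (lt_nxt (a i)).le) (fun i => (lt_nxt (b i)).le) t ht
  have hphi : phi d t = ev (fun i => 4 * (b i - a i)) := by
    have := phi_pow_apply 1 t
    rw [Function.iterate_one, pow_one] at this
    rw [this, h3]
    ext i
    simp only [PiLp.smul_apply, ev_apply, smul_eq_mul]
    push_cast
    ring
  rw [hphi]
  constructor
  · exact deflation_aux ha hb h4
  · intro h
    have h5 := deflation_aux hb ha (fun i => (h4 i).symm) h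
    have h6 : ev (fun i => 4 * (a i - b i)) +ᵥ (ev (fun i => 4 * (b i - a i)) +ᵥ S) = S := by
      rw [vadd_vadd]
      have : ev (fun i => 4 * (a i - b i)) + ev (fun i => 4 * (b i - a i)) = (0 : E d) := by
        ext i
        simp only [PiLp.add_apply, ev_apply, PiLp.zero_apply]
        push_cast
        ring
      rw [this, zero_vadd]
    rwa [h6] at h5

theorem norm_le_of_forall {z : E d} {r : ℝ} (h : ∀ i, |z i| ≤ r) : ‖z‖ ≤ d * r := by
  have h1 : z = ∑ i, z i • (EuclideanSpace.basisFun (Fin d) ℝ) i := by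
    ext j
    simp [Finset.sum_apply, EuclideanSpace.basisFun_apply, Pi.single_apply]
  rw [h1]
  refine (norm_sum_le _ _).trans ?_
  have h2 : ∀ i ∈ Finset.univ, ‖z i • (EuclideanSpace.basisFun (Fin d) ℝ) i‖ ≤ r := by
    intro i _
    rw [norm_smul, (EuclideanSpace.basisFun (Fin d) ℝ).norm_eq_one, mul_one]
    exact h i
  refine (Finset.sum_le_sum h2).trans ?_
  simp

theorem repetitivity_tiles (Q : Set (Set (E d))) (hQ : Q ⊆ tiles d) (hfin : Q.Finite) :
    ∃ R : ℝ, 0 < R ∧ ∀ x : E d, ∃ t : E d,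
      ∀ T ∈ Q, t +ᵥ T ∈ tiles d ∧ t +ᵥ T ⊆ Metric.ball x R := by
  have hJ : ∀ᶠ J : ℕ in atTop, ∀ T ∈ Q, ∃ a : Fin d → ℤ, Vtx a ∧ T = tile a ∧
      ∀ i, |a i| + 3 ≤ (4 : ℤ) ^ J := by
    rw [Filter.eventually_all_finite hfin]
    intro T hT
    obtain ⟨a, ha, rfl⟩ := hQ hT
    have h1 : ∀ᶠ J : ℕ in atTop, ∀ i, |a i| + 3 ≤ (4 : ℤ) ^ J := by
      rw [Filter.eventually_all]
      intro i
      exact (tendsto_pow_atTop_atTop_of_one_lt (by norm_num : (1 : ℤ) < 4)).eventually_ge_atTop _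
    filter_upwards [h1] with J hJ
    exact ⟨a, ha, rfl, hJ⟩
  obtain ⟨J, hJ⟩ := hJ.exists
  refine ⟨d * (4 * 4 ^ J) + 1, by positivity, fun x => ?_⟩
  set m : Fin d → ℤ := fun i => ⌊x i / (4 * 4 ^ J)⌋ with hm
  set w : Fin d → ℤ := fun i => 4 ^ J * (2 * m i + 1) with hw
  have hp : (0 : ℝ) < 4 ^ J := by positivity
  have hxw : ∀ i, |2 * (w i : ℝ) - x i| ≤ 2 * 4 ^ J := by
    intro i
    have h1 : (m i : ℝ) ≤ x i / (4 * 4 ^ J) := Int.floor_le _
    have h2 : x i / (4 * 4 ^ J) < m i + 1 := Int.lt_floor_add_one _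
    rw [le_div_iff₀ (by positivity)] at h1
    rw [div_lt_iff₀ (by positivity)] at h2
    have h3 : (w i : ℝ) = 4 ^ J * (2 * m i + 1) := by rw [hw]; push_cast; ring
    rw [h3, abs_le]
    constructor <;> nlinarith
  refine ⟨ev w, fun T hT => ?_⟩
  obtain ⟨a, ha, rfl, haJ⟩ := hJ T hT
  have habs : ∀ i, |a i + 1| < (4 : ℤ) ^ J := by
    intro i
    have h1 := haJ i
    have h2 : |a i + 1| ≤ |a i| + |1| := abs_add_le _ _
    rw [abs_one] at h2
    omega
  have hnxt : ∀ i, nxt (a i + w i) = nxt (a i) + w i := by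
    intro i
    have h2 := hole_add_iff J (m i) (a i + 1) (habs i)
    have e : a i + w i + 1 = a i + 1 + 4 ^ J * (2 * m i + 1) := by rw [hw]; ring
    rcases nxt_cases (a i) with ⟨g1, g2⟩ | ⟨g1, g2⟩
    · rw [nxt_of_hole (by rw [e, h2]; exact g1), g2]; ring
    · rw [nxt_of_not_hole (by rw [e, h2]; exact g1), g2]; ring
  have he : ev w +ᵥ tile a = tile (fun i => a i + w i) := by
    unfold tile
    rw [vadd_box]
    congr 1
    funext i
    exact (hnxt i).symm
  rw [he]
  refine ⟨⟨_, fun i => ?_, rfl⟩, fun y hy => ?_⟩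
  · have h1 := haJ i
    rw [show a i + w i = a i + 4 ^ J * (2 * m i + 1) from rfl,
      hole_add_iff J (m i) (a i) (by omega)]
    exact ha i
  · rw [Metric.mem_ball, dist_eq_norm]
    have h1 : ∀ i, |(y - x) i| ≤ 4 * 4 ^ J := by
      intro i
      obtain ⟨h2, h3⟩ := mem_tile.1 hy i
      rw [hnxt i] at h3
      push_cast at h2 h3
      have h4 := haJ i
      have h5 := nxt_le (a i)
      have h6 : |(a i : ℝ)| + 3 ≤ 4 ^ J := by exact_mod_cast h4
      have h7 : (nxt (a i) : ℝ) ≤ a i + 2 := by exact_mod_cast h5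
      have h8 := abs_le.1 (hxw i)
      have h9 := abs_le.1 (le_refl |(a i : ℝ)|)
      rw [PiLp.sub_apply, abs_le]
      constructor <;> linarith [h8.1, h8.2, h9.1, h9.2]
    have := norm_le_of_forall h1
    linarith

theorem isSelfAffine_tiles : IsSelfAffine (tiles d) (phi d) where
  tiling := isTiling_tiles
  repetitivity := repetitivity_tiles
  expansive := isExpansive_phi
  inflation := by
    rintro T ⟨a, ha, rfl⟩
    exact inflation_tile ha
  deflation := deflation_tiles

/-! ### Vertices, separation and counting -/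

theorem mem_vertexSet {x : E d} :
    x ∈ vertexSet (tiles d) ↔ ∃ y : Fin d → ℤ, Vtx y ∧ x = ev y := by
  constructor
  · rintro ⟨T, ⟨a, ha, rfl⟩, hx⟩
    unfold tile at hx
    rw [extremePoints_box _ _ fun i => (lt_nxt (a i)).le] at hx
    have hex : ∀ i, ∃ y : ℤ, ¬ Hole y ∧ x i = 2 * (y : ℝ) := by
      intro i
      rcases hx i with h | h
      · exact ⟨a i, ha i, h⟩
      · exact ⟨nxt (a i), not_hole_nxt _, h⟩
    choose y hy hxy using hex
    refine ⟨y, hy, ?_⟩
    ext i
    rw [hxy i, ev_apply]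
  · rintro ⟨y, hy, rfl⟩
    refine ⟨tile y, ⟨y, hy, rfl⟩, ?_⟩
    unfold tile
    rw [extremePoints_box _ _ fun i => (lt_nxt (y i)).le]
    exact fun i => Or.inl rfl

theorem isSeparated_tiles : IsSeparated (tiles d) := by
  intro x hx y hy hxy
  rw [mem_vertexSet] at hx hy
  obtain ⟨u, hu, rfl⟩ := hx
  obtain ⟨v, hv, rfl⟩ := hy
  have hne : u ≠ v := fun h => hxy (h ▸ rfl)
  obtain ⟨i, hi⟩ := Function.ne_iff.1 hne
  rw [dist_eq_norm]
  have h1 := PiLp.norm_apply_le (ev u - ev v) i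
  have h2 : (1 : ℝ) ≤ |((u i - v i : ℤ) : ℝ)| := by
    rw [← Int.cast_abs]
    have : 1 ≤ |u i - v i| := Int.one_le_abs (sub_ne_zero.2 hi)
    exact_mod_cast this
  have h3 : (2 : ℝ) * |((u i - v i : ℤ) : ℝ)| ≤ ‖ev u - ev v‖ := by
    refine le_trans (le_of_eq ?_) h1
    change _ = |(ev u - ev v) i|
    rw [PiLp.sub_apply, ev_apply, ev_apply, ← mul_sub, abs_mul]
    push_cast
    norm_num
  linarith

open scoped Classical in
/-- The number of vertices in a half-open interval. -/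
noncomputable def cnt (u v : ℤ) : ℕ := ((Finset.Ico u v).filter fun y => ¬ Hole y).card

open scoped Classical in
theorem cnt_succ {u v : ℤ} (h : u ≤ v) : cnt u (v + 1) = cnt u v + if Hole v then 0 else 1 := by
  unfold cnt
  rw [← Finset.insert_Ico_right_eq_Ico_add_one h, Finset.filter_insert]
  by_cases hv : Hole v
  · simp [hv]
  · rw [if_pos hv, Finset.card_insert_of_notMem (by simp), if_neg hv]

theorem cnt_self (u : ℤ) : cnt u u = 0 := by
  unfold cnt
  simp

theorem cnt_four {u v : ℤ} (h : u ≤ v) : (cnt (4 * u) (4 * v) : ℤ) = 2 * (v - u) + cnt u v := by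
  classical
  induction v, h using Int.leInduction with
  | base => rw [cnt_self, cnt_self]; simp
  | succ v h ih =>
    have e : 4 * (v + 1) = 4 * v + 1 + 1 + 1 + 1 := by ring
    rw [e, cnt_succ (by omega), cnt_succ (by omega), cnt_succ (by omega), cnt_succ (by omega),
      cnt_succ h, if_neg (not_hole_of_odd (y := 4 * v + 1 + 1 + 1) (by omega)),
      if_pos (hole_of_two (y := 4 * v + 1 + 1) (by omega)),
      if_neg (not_hole_of_odd (y := 4 * v + 1) (by omega))]
    push_cast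
    rw [ih]
    by_cases hv : Hole v
    · rw [if_pos hv, if_pos (hole_four_mul.2 hv)]; ring
    · rw [if_neg hv, if_neg (fun hh => hv (hole_four_mul.1 hh))]; ring

theorem cnt_pow (k : ℕ) {u v : ℤ} (h : u ≤ v) :
    3 * (cnt (4 ^ k * u) (4 ^ k * v) : ℤ) = 2 * (v - u) * (4 ^ k - 1) + 3 * cnt u v := by
  induction k with
  | zero => simp
  | succ k ih =>
    have h1 : (4 : ℤ) ^ k * u ≤ 4 ^ k * v := mul_le_mul_of_nonneg_left h (by positivity)
    have e1 : (4 : ℤ) ^ (k + 1) * u = 4 * (4 ^ k * u) := by ring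
    have e2 : (4 : ℤ) ^ (k + 1) * v = 4 * (4 ^ k * v) := by ring
    rw [e1, e2, cnt_four h1, mul_add, ih]
    ring

theorem cnt_nxt {a : ℤ} (ha : ¬ Hole a) : cnt a (nxt a) = 1 := by
  classical
  rcases nxt_cases a with ⟨g1, g2⟩ | ⟨g1, g2⟩
  · rw [g2, show a + 2 = a + 1 + 1 by ring, cnt_succ (by omega), cnt_succ le_rfl, cnt_self,
      if_neg ha, if_pos g1]
  · rw [g2, cnt_succ le_rfl, cnt_self, if_neg ha]

/-- The number of vertices in the half-open inflated tile. -/
theorem cnt_tile (k : ℕ) {a : ℤ} (ha : ¬ Hole a) :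
    (cnt (4 ^ k * a) (4 ^ k * nxt a) : ℝ) = (2 * (nxt a - a) * (4 ^ k - 1) + 3) / 3 := by
  have h := cnt_pow k (lt_nxt a).le
  rw [cnt_nxt ha] at h
  have h2 : (3 : ℝ) * (cnt (4 ^ k * a) (4 ^ k * nxt a) : ℝ) =
      2 * (nxt a - a) * (4 ^ k - 1) + 3 * 1 := by exact_mod_cast h
  linarith

open scoped Classical in
/-- Vertices in a half-open box. -/
noncomputable def pts0 (u v : Fin d → ℤ) : Finset (Fin d → ℤ) :=
  Fintype.piFinset fun i => (Finset.Ico (u i) (v i)).filter fun y => ¬ Hole y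

open scoped Classical in
/-- Vertices in a closed box. -/
noncomputable def pts1 (u v : Fin d → ℤ) : Finset (Fin d → ℤ) :=
  Fintype.piFinset fun i => (Finset.Icc (u i) (v i)).filter fun y => ¬ Hole y

open scoped Classical in
/-- Vertices in an open box. -/
noncomputable def pts2 (u v : Fin d → ℤ) : Finset (Fin d → ℤ) :=
  Fintype.piFinset fun i => (Finset.Ioo (u i) (v i)).filter fun y => ¬ Hole y

theorem card_pts0 (u v : Fin d → ℤ) : (pts0 u v).card = ∏ i, cnt (u i) (v i) := by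
  unfold pts0 cnt
  rw [Fintype.card_piFinset]

theorem card_pts1 {u v : Fin d → ℤ} (h : ∀ i, u i ≤ v i) (hv : Vtx v) :
    (pts1 u v).card = ∏ i, (cnt (u i) (v i) + 1) := by
  classical
  unfold pts1 cnt
  rw [Fintype.card_piFinset]
  refine Finset.prod_congr rfl fun i _ => ?_
  rw [← Finset.Ico_insert_right (h i), Finset.filter_insert, if_pos (hv i),
    Finset.card_insert_of_notMem (by simp)]

theorem card_pts2 {u v : Fin d → ℤ} (h : ∀ i, u i < v i) (hu : Vtx u) :
    (pts2 u v).card = ∏ i, (cnt (u i) (v i) - 1) := by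
  classical
  unfold pts2 cnt
  rw [Fintype.card_piFinset]
  refine Finset.prod_congr rfl fun i _ => ?_
  rw [← Finset.Ioo_insert_left (h i), Finset.filter_insert, if_pos (hu i),
    Finset.card_insert_of_notMem (by simp), Nat.add_sub_cancel]

theorem vertexSet_inter_box (u v : Fin d → ℤ) :
    vertexSet (tiles d) ∩ box u v = ev '' (pts1 u v : Set (Fin d → ℤ)) := by
  classical
  ext x
  rw [mem_inter_iff, mem_vertexSet]
  constructor
  · rintro ⟨⟨y, hy, rfl⟩, hx⟩
    rw [ev_mem_box] at hx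
    refine ⟨y, ?_, rfl⟩
    rw [Finset.mem_coe, pts1, Fintype.mem_piFinset]
    intro i
    rw [Finset.mem_filter, Finset.mem_Icc]
    exact ⟨hx i, hy i⟩
  · rintro ⟨y, hy, rfl⟩
    rw [Finset.mem_coe, pts1, Fintype.mem_piFinset] at hy
    have hy' : ∀ i, (u i ≤ y i ∧ y i ≤ v i) ∧ ¬ Hole (y i) := by
      intro i
      have := hy i
      rwa [Finset.mem_filter, Finset.mem_Icc] at this
    exact ⟨⟨y, fun i => (hy' i).2, rfl⟩, ev_mem_box.2 fun i => (hy' i).1⟩

theorem vertexSet_inter_interior_box (u v : Fin d → ℤ) :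
    vertexSet (tiles d) ∩ interior (box u v) = ev '' (pts2 u v : Set (Fin d → ℤ)) := by
  classical
  ext x
  rw [mem_inter_iff, mem_vertexSet, interior_box]
  constructor
  · rintro ⟨⟨y, hy, rfl⟩, hx⟩
    refine ⟨y, ?_, rfl⟩
    rw [Finset.mem_coe, pts2, Fintype.mem_piFinset]
    intro i
    rw [Finset.mem_filter, Finset.mem_Ioo]
    obtain ⟨h1, h2⟩ := hx i
    rw [ev_apply] at h1 h2
    have h3 : (u i : ℝ) < y i := by linarith
    have h4 : (y i : ℝ) < v i := by linarith
    exact ⟨⟨by exact_mod_cast h3, by exact_mod_cast h4⟩, hy i⟩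
  · rintro ⟨y, hy, rfl⟩
    rw [Finset.mem_coe, pts2, Fintype.mem_piFinset] at hy
    have hy' : ∀ i, (u i < y i ∧ y i < v i) ∧ ¬ Hole (y i) := by
      intro i
      have := hy i
      rwa [Finset.mem_filter, Finset.mem_Ioo] at this
    refine ⟨⟨y, fun i => (hy' i).2, rfl⟩, fun i => ?_⟩
    rw [ev_apply]
    have h1 : (u i : ℝ) < y i := by exact_mod_cast (hy' i).1.1
    have h2 : (y i : ℝ) < v i := by exact_mod_cast (hy' i).1.2
    constructor <;> linarith

theorem phi_pow_tile (k : ℕ) (a : Fin d → ℤ) :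
    (phi d)^[k] '' tile a = box (fun i => 4 ^ k * a i) (fun i => 4 ^ k * nxt (a i)) := by
  rw [phi_pow_image]
  unfold tile
  rw [smul_box _ (by positivity)]
  push_cast
  rfl

theorem volume_box (u v : Fin d → ℤ) (h : ∀ i, u i ≤ v i) :
    (volume (box u v)).toReal = ∏ i, (2 * ((v i : ℝ) - u i)) := by
  have h1 : box u v = (MeasurableEquiv.toLp 2 (Fin d → ℝ)).symm ⁻¹'
      (univ.pi fun i => Icc (2 * (u i : ℝ)) (2 * (v i : ℝ))) := by
    ext x
    rw [mem_preimage, mem_univ_pi]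
    exact Iff.rfl
  rw [h1, (EuclideanSpace.volume_preserving_symm_measurableEquiv_toLp (Fin d)).measure_preimage
    (MeasurableSet.univ_pi fun i => measurableSet_Icc).nullMeasurableSet, volume_pi_pi]
  rw [ENNReal.toReal_prod]
  refine Finset.prod_congr rfl fun i _ => ?_
  have : (u i : ℝ) ≤ v i := by exact_mod_cast h i
  rw [Real.volume_Icc, ENNReal.toReal_ofReal (by linarith)]
  ring

theorem volume_box_ne_top (u v : Fin d → ℤ) : volume (box u v) ≠ ⊤ := by
  have h1 : box u v = (MeasurableEquiv.toLp 2 (Fin d → ℝ)).symm ⁻¹'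
      (univ.pi fun i => Icc (2 * (u i : ℝ)) (2 * (v i : ℝ))) := by
    ext x
    rw [mem_preimage, mem_univ_pi]
    exact Iff.rfl
  rw [h1, (EuclideanSpace.volume_preserving_symm_measurableEquiv_toLp (Fin d)).measure_preimage
    (MeasurableSet.univ_pi fun i => measurableSet_Icc).nullMeasurableSet, volume_pi_pi]
  refine ENNReal.prod_ne_top fun i _ => ?_
  rw [Real.volume_Icc]
  exact ENNReal.ofReal_ne_top

theorem convex_box (u v : Fin d → ℤ) : Convex ℝ (box u v) := by
  intro x hx y hy s t hs ht hst i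
  obtain ⟨h1, h2⟩ := hx i
  obtain ⟨h3, h4⟩ := hy i
  rw [PiLp.add_apply, PiLp.smul_apply, PiLp.smul_apply, smul_eq_mul, smul_eq_mul]
  have e : t = 1 - s := by linarith
  subst e
  constructor <;> nlinarith

theorem isClosed_tile (a : Fin d → ℤ) : IsClosed (tile a) := isClosed_box _ _

theorem aedisjoint_tile {a b : Fin d → ℤ} (ha : Vtx a) (hb : Vtx b) (hab : a ≠ b) :
    AEDisjoint volume (tile a) (tile b) := by
  have h1 : tile a ∩ tile b ⊆ frontier (tile a) ∪ frontier (tile b) := by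
    rintro x ⟨hxa, hxb⟩
    by_contra hx
    rw [mem_union, not_or, (isClosed_tile a).frontier_eq, (isClosed_tile b).frontier_eq] at hx
    have h2 : x ∈ interior (tile a) := by
      by_contra h; exact hx.1 ⟨hxa, h⟩
    have h3 : x ∈ interior (tile b) := by
      by_contra h; exact hx.2 ⟨hxb, h⟩
    exact (disjoint_left.1 (disjoint_interior_tile ha hb hab)) h2 h3
  refine measure_mono_null h1 (measure_union_null ?_ ?_)
  · exact (convex_box _ _).addHaar_frontier _
  · exact (convex_box _ _).addHaar_frontier _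

theorem volume_patch (A : Finset (Fin d → ℤ)) (hA : ∀ a ∈ A, Vtx a) :
    (volume (⋃ a ∈ A, tile a)).toReal = ∑ a ∈ A, ∏ i, (2 * ((nxt (a i) : ℝ) - a i)) := by
  rw [measure_biUnion_finset₀, ENNReal.toReal_sum]
  · refine Finset.sum_congr rfl fun a _ => ?_
    exact volume_box _ _ fun i => (lt_nxt _).le
  · intro a _
    exact volume_box_ne_top _ _
  · intro a ha b hb hab
    exact aedisjoint_tile (hA a ha) (hA b hb) hab
  · intro a _
    exact (isClosed_box _ _).measurableSet.nullMeasurableSet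

theorem exists_finset_of_isPatch {P : Set (E d)} (hP : IsPatch (tiles d) P) :
    ∃ A : Finset (Fin d → ℤ), A.Nonempty ∧ (∀ a ∈ A, Vtx a) ∧ P = ⋃ a ∈ A, tile a := by
  classical
  obtain ⟨Q, hQ, hfin, hne, rfl⟩ := hP
  have hinj : Set.InjOn (tile (d := d)) (tile ⁻¹' Q) := fun a _ b _ h => tile_injective h
  have hfin' := Set.Finite.preimage hinj hfin
  refine ⟨hfin'.toFinset, ?_, ?_, ?_⟩
  · obtain ⟨T, hT⟩ := hne
    obtain ⟨a, ha, rfl⟩ := hQ hT
    exact ⟨a, by simpa using hT⟩
  · intro a ha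
    rw [Set.Finite.mem_toFinset, mem_preimage] at ha
    obtain ⟨b, hb, he⟩ := hQ ha
    rwa [tile_injective he]
  · ext x
    simp only [mem_sUnion, mem_iUnion, Set.Finite.mem_toFinset, mem_preimage, exists_prop]
    constructor
    · rintro ⟨T, hT, hx⟩
      obtain ⟨a, ha, rfl⟩ := hQ hT
      exact ⟨a, hT, hx⟩
    · rintro ⟨a, ha, hx⟩
      exact ⟨tile a, ha, hx⟩

/-- Counting the vertices in an inflated patch, from both sides. -/
theorem count_patch (A : Finset (Fin d → ℤ)) (hA : ∀ a ∈ A, Vtx a) (k : ℕ) :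
    (∑ a ∈ A, ∏ i, cnt (4 ^ k * a i) (4 ^ k * nxt (a i))) ≤
        (vertexSet (tiles d) ∩ (phi d)^[k] '' (⋃ a ∈ A, tile a)).ncard ∧
      (vertexSet (tiles d) ∩ (phi d)^[k] '' (⋃ a ∈ A, tile a)).ncard ≤
        ∑ a ∈ A, ∏ i, (cnt (4 ^ k * a i) (4 ^ k * nxt (a i)) + 1) := by
  classical
  set S := A.biUnion fun a => pts1 (fun i => 4 ^ k * a i) (fun i => 4 ^ k * nxt (a i)) with hS
  have hset : vertexSet (tiles d) ∩ (phi d)^[k] '' (⋃ a ∈ A, tile a) =
      ev '' (S : Set (Fin d → ℤ)) := by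
    rw [image_iUnion₂, inter_iUnion₂, hS, Finset.coe_biUnion, image_iUnion₂]
    refine iUnion₂_congr fun a _ => ?_
    rw [phi_pow_tile, vertexSet_inter_box]
  rw [hset, ncard_image_of_injective _ ev_injective, ncard_coe_finset]
  have hp : (0 : ℤ) < 4 ^ k := by positivity
  constructor
  · have h1 : A.biUnion (fun a => pts0 (fun i => 4 ^ k * a i) (fun i => 4 ^ k * nxt (a i))) ⊆ S := by
      rw [hS]
      refine Finset.biUnion_mono fun a _ => ?_
      unfold pts0 pts1
      refine Fintype.piFinset_subset _ _ fun i => ?_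
      exact Finset.filter_subset_filter _ Finset.Ico_subset_Icc_self
    refine le_trans ?_ (Finset.card_le_card h1)
    rw [Finset.card_biUnion]
    · exact le_of_eq (Finset.sum_congr rfl fun a _ => (card_pts0 _ _).symm)
    · intro a ha b hb hab
      change Disjoint (pts0 _ _) (pts0 _ _)
      rw [Finset.disjoint_left]
      intro y hya hyb
      apply hab
      funext i
      rw [pts0, Fintype.mem_piFinset] at hya hyb
      have h2 := hya i
      have h3 := hyb i
      rw [Finset.mem_filter, Finset.mem_Ico] at h2 h3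
      rcases lt_trichotomy (a i) (b i) with h | h | h
      · have h5 := nxt_le_of_lt (hA b hb i) h
        have h6 : 4 ^ k * nxt (a i) ≤ 4 ^ k * b i := mul_le_mul_of_nonneg_left h5 hp.le
        omega
      · exact h
      · have h5 := nxt_le_of_lt (hA a ha i) h
        have h6 : 4 ^ k * nxt (b i) ≤ 4 ^ k * a i := mul_le_mul_of_nonneg_left h5 hp.le
        omega
  · refine Finset.card_biUnion_le.trans (Finset.sum_le_sum fun a ha => ?_)
    refine le_of_eq (card_pts1 (fun i => ?_) fun i => ?_)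
    · exact mul_le_mul_of_nonneg_left (lt_nxt _).le hp.le
    · rw [hole_pow_mul]
      exact not_hole_nxt _

theorem tendsto_cnt (e : ℝ) {a : ℤ} (ha : ¬ Hole a) :
    Tendsto (fun k : ℕ => ((cnt (4 ^ k * a) (4 ^ k * nxt a) : ℝ) + e) / 4 ^ k) atTop
      (𝓝 (2 * ((nxt a : ℝ) - a) / 3)) := by
  have h1 : Tendsto (fun k : ℕ => ((1 / 4 : ℝ)) ^ k) atTop (𝓝 0) :=
    tendsto_pow_atTop_nhds_zero_of_lt_one (by norm_num) (by norm_num)
  have h2 : (fun k : ℕ => ((cnt (4 ^ k * a) (4 ^ k * nxt a) : ℝ) + e) / 4 ^ k) =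
      fun k : ℕ => 2 * ((nxt a : ℝ) - a) / 3 +
        (1 / 4) ^ k * ((3 - 2 * ((nxt a : ℝ) - a)) / 3 + e) := by
    funext k
    rw [cnt_tile k ha, one_div, inv_pow]
    have : (4 : ℝ) ^ k ≠ 0 := by positivity
    field_simp
    ring
  rw [h2]
  have h3 := (h1.mul_const ((3 - 2 * ((nxt a : ℝ) - a)) / 3 + e)).const_add
    (2 * ((nxt a : ℝ) - a) / 3)
  simpa using h3

theorem tendsto_sum_cnt (e : ℝ) (A : Finset (Fin d → ℤ)) (hA : ∀ a ∈ A, Vtx a) :
    Tendsto (fun k : ℕ => (∑ a ∈ A, ∏ i, ((cnt (4 ^ k * a i) (4 ^ k * nxt (a i)) : ℝ) + e)) /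
      (4 ^ k) ^ d) atTop (𝓝 ((∑ a ∈ A, ∏ i, (2 * ((nxt (a i) : ℝ) - a i))) / 3 ^ d)) := by
  have h1 : (fun k : ℕ => (∑ a ∈ A, ∏ i, ((cnt (4 ^ k * a i) (4 ^ k * nxt (a i)) : ℝ) + e)) /
      (4 ^ k) ^ d) = fun k : ℕ => ∑ a ∈ A, ∏ i,
        (((cnt (4 ^ k * a i) (4 ^ k * nxt (a i)) : ℝ) + e) / 4 ^ k) := by
    funext k
    rw [Finset.sum_div]
    refine Finset.sum_congr rfl fun a _ => ?_
    rw [Finset.prod_div_distrib, Finset.prod_const, Finset.card_univ, Fintype.card_fin]
  have h2 : (∑ a ∈ A, ∏ i, (2 * ((nxt (a i) : ℝ) - a i))) / 3 ^ d =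
      ∑ a ∈ A, ∏ i, (2 * ((nxt (a i) : ℝ) - a i) / 3) := by
    rw [Finset.sum_div]
    refine Finset.sum_congr rfl fun a _ => ?_
    rw [Finset.prod_div_distrib, Finset.prod_const, Finset.card_univ, Fintype.card_fin]
  rw [h1, h2]
  exact tendsto_finsetSum _ fun a ha => tendsto_finsetProd _ fun i _ => tendsto_cnt e (hA a ha i)

theorem volume_phi_pow (k : ℕ) (X : Set (E d)) :
    (volume ((phi d)^[k] '' X)).toReal = (4 ^ k) ^ d * (volume X).toReal := by
  rw [phi_pow_image, Measure.addHaar_smul, finrank_euclideanSpace_fin, ENNReal.toReal_mul,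
    ENNReal.toReal_ofReal (abs_nonneg _)]
  congr 1
  push_cast
  exact abs_of_nonneg (by positivity)

theorem isDelta_tiles : IsDelta (tiles d) (phi d) (3 ^ d) := by
  refine ⟨by positivity, fun P hP => ?_⟩
  change Tendsto (fun k : ℕ => (volume ((phi d)^[k] '' P)).toReal /
    ((vertexSet (tiles d) ∩ (phi d)^[k] '' P).ncard : ℝ)) atTop (𝓝 (3 ^ d))
  obtain ⟨A, hne, hA, rfl⟩ := exists_finset_of_isPatch hP
  set W : ℝ := ∑ a ∈ A, ∏ i, (2 * ((nxt (a i) : ℝ) - a i)) with hW
  have hWpos : 0 < W := by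
    refine Finset.sum_pos (fun a _ => Finset.prod_pos fun i _ => ?_) hne
    have : (a i : ℝ) < nxt (a i) := by exact_mod_cast lt_nxt (a i)
    linarith
  set c : ℕ → ℝ := fun k =>
    ((vertexSet (tiles d) ∩ (phi d)^[k] '' (⋃ a ∈ A, tile a)).ncard : ℝ) with hc
  have hlim : Tendsto (fun k => c k / (4 ^ k) ^ d) atTop (𝓝 (W / 3 ^ d)) := by
    refine tendsto_of_tendsto_of_tendsto_of_le_of_le (tendsto_sum_cnt 0 A hA)
      (tendsto_sum_cnt 1 A hA) (fun k => ?_) (fun k => ?_)
    · have h1 := (count_patch A hA k).1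
      have h2 : ((∑ a ∈ A, ∏ i, cnt (4 ^ k * a i) (4 ^ k * nxt (a i)) : ℕ) : ℝ) ≤ c k :=
        Nat.cast_le.2 h1
      push_cast at h2
      have h3 : (0 : ℝ) ≤ (4 ^ k) ^ d := by positivity
      simp only [add_zero]
      exact div_le_div_of_nonneg_right h2 h3
    · have h1 := (count_patch A hA k).2
      have h2 : c k ≤ ((∑ a ∈ A, ∏ i, (cnt (4 ^ k * a i) (4 ^ k * nxt (a i)) + 1) : ℕ) : ℝ) :=
        Nat.cast_le.2 h1
      push_cast at h2
      have h3 : (0 : ℝ) ≤ (4 ^ k) ^ d := by positivity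
      exact div_le_div_of_nonneg_right h2 h3
  have hvol : ∀ k : ℕ, (volume ((phi d)^[k] '' (⋃ a ∈ A, tile a))).toReal / c k =
      W / (c k / (4 ^ k) ^ d) := by
    intro k
    rw [volume_phi_pow, volume_patch A hA, ← hW]
    have h3 : ((4 : ℝ) ^ k) ^ d ≠ 0 := by positivity
    rcases eq_or_ne (c k) 0 with h0 | h0
    · simp [h0]
    · field_simp
  have h4 : Tendsto (fun k => W / (c k / (4 ^ k) ^ d)) atTop (𝓝 (W / (W / 3 ^ d))) :=
    tendsto_const_nhds.div hlim (by positivity)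
  have h5 : W / (W / 3 ^ d) = 3 ^ d := by
    field_simp
  rw [h5] at h4
  exact h4.congr fun k => (hvol k).symm

theorem surfaceArea_phi_pow (e : ℕ) (k : ℕ) (X : Set (E (e + 1))) :
    surfaceArea ((phi (e + 1))^[k] '' X) = (4 ^ k) ^ e * surfaceArea X := by
  unfold surfaceArea
  have hc : ((4 ^ k : ℕ) : ℝ) ≠ 0 := by positivity
  have h1 : frontier ((phi (e + 1))^[k] '' X) = ((4 ^ k : ℕ) : ℝ) • frontier X := by
    rw [phi_pow_image]
    exact ((Homeomorph.smulOfNeZero _ hc).image_frontier X).symm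
  have hd : (((e + 1 : ℕ) : ℝ) - 1) = e := by push_cast; ring
  rw [h1, hd, Measure.hausdorffMeasure_smul₀ (Nat.cast_nonneg e) hc, NNReal.rpow_natCast,
    ENNReal.smul_def, smul_eq_mul, ENNReal.toReal_mul, ENNReal.coe_toReal]
  push_cast
  rw [Real.norm_of_nonneg (by positivity)]

theorem not_hole_one : ¬ Hole 1 := not_hole_of_odd (by norm_num)

theorem nxt_zero : nxt 0 = 1 := by
  rw [nxt_of_not_hole (by rw [zero_add]; exact not_hole_one), zero_add]

/-- The formula fails for the patch consisting of the tile at the origin. -/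
theorem not_pickFormula (e : ℕ) :
    ¬ PickFormula (tiles (e + 1)) (phi (e + 1)) (3 ^ (e + 1)) (tile fun _ => 0) := by
  intro hform
  set P : Set (E (e + 1)) := tile fun _ => 0 with hP
  have hvtx : Vtx (fun _ : Fin (e + 1) => (0 : ℤ)) := fun _ => not_hole_zero
  -- the number of one-dimensional tiles
  set N : ℕ → ℝ := fun k => (cnt (4 ^ k * 0) (4 ^ k * nxt 0) : ℝ) with hN
  have hNval : ∀ k, N k = (2 * 4 ^ k + 1) / 3 := by
    intro k
    have := cnt_tile k not_hole_zero
    rw [hN]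
    beta_reduce
    rw [this, nxt_zero]
    push_cast
    ring
  have hcard : ∀ k : ℕ, ((vertexSet (tiles (e + 1)) ∩ (phi (e + 1))^[k] '' P).ncard : ℝ) =
      (N k + 1) ^ (e + 1) := by
    intro k
    rw [hP, phi_pow_tile, vertexSet_inter_box, ncard_image_of_injective _ ev_injective,
      ncard_coe_finset, card_pts1]
    · push_cast
      rw [Finset.prod_const, Finset.card_univ, Fintype.card_fin]
    · intro i
      exact mul_le_mul_of_nonneg_left (lt_nxt _).le (by positivity)
    · intro i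
      rw [hole_pow_mul]
      exact not_hole_nxt _
  have hcard2 : ∀ k : ℕ,
      ((vertexSet (tiles (e + 1)) ∩ interior ((phi (e + 1))^[k] '' P)).ncard : ℝ) =
      (N k - 1) ^ (e + 1) := by
    intro k
    rw [hP, phi_pow_tile, vertexSet_inter_interior_box, ncard_image_of_injective _ ev_injective,
      ncard_coe_finset, card_pts2]
    · have h1 : 1 ≤ cnt (4 ^ k * 0) (4 ^ k * nxt 0) := by
        have h2 := hNval k
        have h3 : (1 : ℝ) ≤ N k := by
          rw [h2]
          have : (1 : ℝ) ≤ 4 ^ k := one_le_pow₀ (by norm_num)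
          linarith
        have h4 : (1 : ℝ) ≤ ((cnt (4 ^ k * 0) (4 ^ k * nxt 0) : ℕ) : ℝ) := h3
        exact_mod_cast h4
      rw [Finset.prod_const, Finset.card_univ, Fintype.card_fin]
      push_cast [Nat.cast_sub h1]
      rfl
    · intro i
      exact mul_lt_mul_of_pos_left (lt_nxt _) (by positivity)
    · intro i
      rw [hole_pow_mul]
      exact not_hole_zero
  have hcard3 : ∀ k : ℕ,
      ((vertexSet (tiles (e + 1)) ∩ frontier ((phi (e + 1))^[k] '' P)).ncard : ℝ) =
      (N k + 1) ^ (e + 1) - (N k - 1) ^ (e + 1) := by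
    intro k
    have hcl : IsClosed ((phi (e + 1))^[k] '' P) := by
      rw [hP, phi_pow_tile]; exact isClosed_box _ _
    have hset : vertexSet (tiles (e + 1)) ∩ frontier ((phi (e + 1))^[k] '' P) =
        (vertexSet (tiles (e + 1)) ∩ (phi (e + 1))^[k] '' P) \
          (vertexSet (tiles (e + 1)) ∩ interior ((phi (e + 1))^[k] '' P)) := by
      rw [hcl.frontier_eq]
      ext x
      simp only [mem_inter_iff, Set.mem_sdiff]
      tauto
    have hsub : (vertexSet (tiles (e + 1)) ∩ interior ((phi (e + 1))^[k] '' P)) ⊆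
        (vertexSet (tiles (e + 1)) ∩ (phi (e + 1))^[k] '' P) :=
      inter_subset_inter_right _ interior_subset
    have hfin : (vertexSet (tiles (e + 1)) ∩ (phi (e + 1))^[k] '' P).Finite := by
      rw [hP, phi_pow_tile, vertexSet_inter_box]
      exact (Finset.finite_toSet _).image _
    have h1 := ncard_sdiff_add_ncard_of_subset hsub hfin
    rw [← hset] at h1
    have h2 : ((vertexSet (tiles (e + 1)) ∩ frontier ((phi (e + 1))^[k] '' P)).ncard : ℝ) +
        ((vertexSet (tiles (e + 1)) ∩ interior ((phi (e + 1))^[k] '' P)).ncard : ℝ) =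
        ((vertexSet (tiles (e + 1)) ∩ (phi (e + 1))^[k] '' P).ncard : ℝ) := by
      exact_mod_cast h1
    rw [hcard, hcard2] at h2
    linarith
  have hvol : ∀ k : ℕ, (volume ((phi (e + 1))^[k] '' P)).toReal / 3 ^ (e + 1) =
      (N k - 1 / 3) ^ (e + 1) := by
    intro k
    have h1 : (volume P).toReal = 2 ^ (e + 1) := by
      rw [hP]
      unfold tile
      rw [volume_box _ _ fun i => (lt_nxt _).le, nxt_zero]
      simp
    rw [volume_phi_pow, h1, hNval, ← mul_pow, ← div_pow]
    congr 1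
    ring
  set D : ℕ → ℝ := fun k => ((vertexSet (tiles (e + 1)) ∩ (phi (e + 1))^[k] '' P).ncard : ℝ) -
    ((volume ((phi (e + 1))^[k] '' P)).toReal / 3 ^ (e + 1) +
      1 / 2 * ((vertexSet (tiles (e + 1)) ∩ frontier ((phi (e + 1))^[k] '' P)).ncard : ℝ)) with hD
  set c : ℝ := 1 / 3 * (2 / 3) ^ e with hc
  have hcpos : 0 < c := by positivity
  have hlow : ∀ k, c * (4 ^ k) ^ e ≤ D k := by
    intro k
    have hp : (1 : ℝ) ≤ 4 ^ k := one_le_pow₀ (by norm_num)
    have hNk := hNval k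
    have hN1 : 1 ≤ N k := by rw [hNk]; linarith
    have h1 : D k = 1 / 2 * ((N k + 1) ^ (e + 1) + (N k - 1) ^ (e + 1)) -
        (N k - 1 / 3) ^ (e + 1) := by
      simp only [hD]
      rw [hcard, hvol, hcard3]
      ring
    have h2 : N k ^ (e + 1) ≤ 1 / 2 * ((N k + 1) ^ (e + 1) + (N k - 1) ^ (e + 1)) := by
      have hx : N k + 1 ∈ Ici (0 : ℝ) := by rw [mem_Ici]; linarith
      have hy : N k - 1 ∈ Ici (0 : ℝ) := by rw [mem_Ici]; linarith
      have ha : (0 : ℝ) ≤ 1 / 2 := by norm_num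
      have hab : (1 / 2 : ℝ) + 1 / 2 = 1 := by norm_num
      have := (convexOn_pow (𝕜 := ℝ) (e + 1)).2 hx hy ha ha hab
      simp only [smul_eq_mul] at this
      have e1 : 1 / 2 * (N k + 1) + 1 / 2 * (N k - 1) = N k := by ring
      rw [e1] at this
      linarith
    have h3 : (N k - 1 / 3) ^ (e + 1) ≤ (N k - 1 / 3) * N k ^ e := by
      rw [pow_succ, mul_comm]
      exact mul_le_mul_of_nonneg_left (pow_le_pow_left₀ (by linarith) (by linarith) _)
        (by linarith)
    have h4 : N k ^ (e + 1) = N k * N k ^ e := by ring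
    have h5 : (2 / 3 * 4 ^ k : ℝ) ^ e ≤ N k ^ e :=
      pow_le_pow_left₀ (by positivity) (by rw [hNk]; linarith) _
    have h6 : c * (4 ^ k) ^ e = 1 / 3 * (2 / 3 * 4 ^ k) ^ e := by
      rw [hc, mul_pow]; ring
    rw [h6, h1]
    nlinarith
  set s : ℝ := surfaceArea P with hs
  have hform' : D =o[atTop] fun k : ℕ => (4 ^ k) ^ e * s := by
    refine hform.congr' (EventuallyEq.refl _ _) (Eventually.of_forall fun k => ?_)
    exact surfaceArea_phi_pow e k P
  have hev := hform'.bound (c := c / (2 * (|s| + 1))) (by positivity)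
  obtain ⟨k, hk⟩ := hev.exists
  have hpk : (0 : ℝ) < (4 ^ k) ^ e := by positivity
  have h1 : D k ≤ c / (2 * (|s| + 1)) * ((4 ^ k) ^ e * |s|) := by
    refine (le_abs_self _).trans ?_
    rw [Real.norm_eq_abs, Real.norm_eq_abs, abs_mul, abs_of_pos hpk] at hk
    exact hk
  have h2 : c / (2 * (|s| + 1)) * ((4 ^ k) ^ e * |s|) ≤ c / 2 * (4 ^ k) ^ e := by
    have h3 : 0 ≤ |s| := abs_nonneg s
    rw [div_mul_eq_mul_div, div_le_iff₀ (by positivity)]
    have h4 : 0 ≤ c * (4 ^ k) ^ e := by positivity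
    nlinarith
  have h3 := hlow k
  have h4 : 0 < c * (4 ^ k) ^ e := by positivity
  linarith

/-! ### Sanity check: the surface area of the patch is a positive real number -/

/-- The map inserting the coordinate `0` at place `0`. -/
noncomputable def face (e : ℕ) (y : Fin e → ℝ) : E (e + 1) := WithLp.toLp 2 (Fin.cons 0 y)

/-- The boundary of the origin tile has finite positive `(d - 1)`-dimensional Hausdorff measure,
so `surfaceArea` is not a junk value there. -/
theorem hausdorffMeasure_frontier_tile (e : ℕ) :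
    0 < Measure.hausdorffMeasure (((e + 1 : ℕ) : ℝ) - 1)
        (frontier (tile fun _ : Fin (e + 1) => (0 : ℤ))) ∧
      Measure.hausdorffMeasure (((e + 1 : ℕ) : ℝ) - 1)
        (frontier (tile fun _ : Fin (e + 1) => (0 : ℤ))) < ⊤ := by
  have hd : (((e + 1 : ℕ) : ℝ) - 1) = ((Fintype.card (Fin e) : ℕ) : ℝ) := by
    rw [Fintype.card_fin]; push_cast; ring
  rw [hd]
  have hfr : frontier (tile fun _ : Fin (e + 1) => (0 : ℤ)) =
      {x : E (e + 1) | (∀ i, 0 ≤ x i ∧ x i ≤ 2) ∧ ∃ i, x i = 0 ∨ x i = 2} := by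
    rw [(isClosed_tile _).frontier_eq]
    unfold tile
    rw [interior_box]
    ext x
    simp only [Set.mem_sdiff, mem_ofPred_eq, box, nxt_zero, Int.cast_zero, Int.cast_one, mul_zero,
      mul_one]
    constructor
    · rintro ⟨h1, h2⟩
      refine ⟨h1, ?_⟩
      by_contra h3
      push Not at h3
      exact h2 fun i => ⟨lt_of_le_of_ne (h1 i).1 (Ne.symm (h3 i).1),
        lt_of_le_of_ne (h1 i).2 (h3 i).2⟩
    · rintro ⟨h1, i, h2⟩
      refine ⟨h1, fun h3 => ?_⟩
      rcases h2 with h2 | h2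
      · exact absurd (h3 i).1 (by rw [h2]; exact lt_irrefl _)
      · exact absurd (h3 i).2 (by rw [h2]; exact lt_irrefl _)
  constructor
  · -- project the face `x 0 = 0`
    set g : E (e + 1) → (Fin e → ℝ) := fun x i => x i.succ with hg
    have hgl : LipschitzWith 1 g := by
      refine LipschitzWith.of_dist_le_mul fun x y => ?_
      rw [NNReal.coe_one, one_mul, dist_pi_le_iff dist_nonneg]
      intro i
      rw [dist_eq_norm, dist_eq_norm]
      exact PiLp.norm_apply_le (x - y) i.succ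
    have h1 := hgl.hausdorffMeasure_image_le (d := ((Fintype.card (Fin e) : ℕ) : ℝ))
      (Nat.cast_nonneg _) (frontier (tile fun _ : Fin (e + 1) => (0 : ℤ)))
    rw [hausdorffMeasure_pi_real] at h1
    have h2 : (univ.pi fun _ : Fin e => Icc (0 : ℝ) 2) ⊆
        g '' frontier (tile fun _ : Fin (e + 1) => (0 : ℤ)) := by
      intro y hy
      refine ⟨face e y, ?_, ?_⟩
      · rw [hfr]
        refine ⟨fun i => ?_, 0, Or.inl rfl⟩
        refine Fin.cases ?_ (fun j => ?_) i
        · exact ⟨le_rfl, zero_le_two⟩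
        · exact hy j (mem_univ j)
      · funext i
        rfl
    have h3 := (measure_mono (μ := volume) h2).trans h1
    rw [volume_pi_pi] at h3
    simp only [Real.volume_Icc, sub_zero, Finset.prod_const, ENNReal.coe_one] at h3
    refine lt_of_lt_of_le ?_ (le_trans h3 ?_)
    · exact ENNReal.pow_pos (by simp) _
    · simp
  · -- cover the boundary by faces
    set f : Fin (e + 1) → ℝ → (Fin e → ℝ) → E (e + 1) :=
      fun i c y => WithLp.toLp 2 (i.insertNth c y) with hf
    have hfl : ∀ i c, LipschitzWith ((e + 1 : ℕ) : NNReal) (f i c) := by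
      intro i c
      refine LipschitzWith.of_dist_le_mul fun x y => ?_
      rw [dist_eq_norm]
      refine (norm_le_of_forall (r := dist x y) fun j => ?_).trans (by simp)
      rw [PiLp.sub_apply]
      change |(i.insertNth c x : Fin (e + 1) → ℝ) j - (i.insertNth c y : Fin (e + 1) → ℝ) j| ≤ _
      refine Fin.succAboveCases i ?_ (fun l => ?_) j
      · simp
      · rw [Fin.insertNth_apply_succAbove, Fin.insertNth_apply_succAbove, ← Real.dist_eq]
        exact dist_le_pi_dist x y l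
    have hcov : frontier (tile fun _ : Fin (e + 1) => (0 : ℤ)) ⊆
        ⋃ p ∈ (Finset.univ ×ˢ {(0 : ℝ), 2} : Finset (Fin (e + 1) × ℝ)),
          f p.1 p.2 '' (univ.pi fun _ : Fin e => Icc (0 : ℝ) 2) := by
      rw [hfr]
      rintro x ⟨hx, i, hi⟩
      rw [mem_iUnion₂]
      refine ⟨(i, x i), ?_, fun j => x (i.succAbove j), fun j _ => hx _, ?_⟩
      · rw [Finset.mem_product]
        refine ⟨Finset.mem_univ _, ?_⟩
        rcases hi with hi | hi <;> simp [hi]
      · ext j
        refine Fin.succAboveCases i ?_ (fun l => ?_) j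
        · simp [hf]
        · simp [hf]
    refine lt_of_le_of_lt (measure_mono hcov) ?_
    refine lt_of_le_of_lt (measure_biUnion_finset_le _ _) ?_
    rw [ENNReal.sum_lt_top]
    intro p _
    refine lt_of_le_of_lt ((hfl p.1 p.2).hausdorffMeasure_image_le (Nat.cast_nonneg _) _) ?_
    rw [hausdorffMeasure_pi_real, volume_pi_pi]
    simp only [Real.volume_Icc, sub_zero, Finset.prod_const]
    exact ENNReal.mul_lt_top (by simp) (by simp)

/-- **Theorem.** In every dimension `d ≥ 1` there is a self-affine tiling (with separated vertex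
set and with `Δ(Γ)` equal to `Δ`) and a patch for which the asymptotic formula fails. -/
theorem result : ∀ d : ℕ, 1 ≤ d → ∃ (𝒯 : Set (Set (EuclideanSpace ℝ (Fin d))))
    (φ : EuclideanSpace ℝ (Fin d) → EuclideanSpace ℝ (Fin d)) (Δ : ℝ),
    IsSelfAffine 𝒯 φ ∧ IsSeparated 𝒯 ∧ IsDelta 𝒯 φ Δ ∧
      ∃ P : Set (EuclideanSpace ℝ (Fin d)), IsPatch 𝒯 P ∧ ¬ PickFormula 𝒯 φ Δ P := by
  intro d hd
  obtain ⟨e, rfl⟩ : ∃ e, d = e + 1 := ⟨d - 1, by omega⟩
  refine ⟨tiles (e + 1), phi (e + 1), 3 ^ (e + 1), isSelfAffine_tiles, isSeparated_tiles,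
    isDelta_tiles, tile fun _ => 0, ?_, not_pickFormula e⟩
  refine ⟨{tile fun _ => 0}, ?_, finite_singleton _, singleton_nonempty _, by simp⟩
  rintro T rfl
  exact ⟨fun _ => 0, fun _ => not_hole_zero, rfl⟩

end Pool.Agent.Results.MP_9c1228_co.PickDisproof
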